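import Mathlib
import Pool.Agent.H258R2.Calib.Lemma

/-!
# Calibration of the square with a ray

The four vertices of the square `[-1,1]^2` and a ray leaving the vertex `(1,1)` in the direction
`(1/2, √3/2)`.
-/

set_option autoImplicit false

open scoped MeasureTheory ENNReal InnerProductSpace
open MeasureTheory Set Filter Topology

namespace Pool.Agent.Y459.NS

/-- The plane. -/
abbrev E2 := EuclideanSpace ℝ (Fin 2)

lemma dist_sq (x y : E2) : dist x y ^ 2 = (x 0 - y 0) ^ 2 + (x 1 - y 1) ^ 2 := by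
  rw [EuclideanSpace.dist_eq, Fin.sum_univ_two, Real.sq_sqrt (by positivity), Real.dist_eq,
    Real.dist_eq, sq_abs, sq_abs]

lemma sqrt3_sq : Real.sqrt 3 * Real.sqrt 3 = 3 := Real.mul_self_sqrt (by norm_num)
lemma sqrt3_lt : Real.sqrt 3 < 1.7321 := by
  rw [Real.sqrt_lt' (by norm_num)]; norm_num
lemma lt_sqrt3 : 1.732 < Real.sqrt 3 := by
  rw [Real.lt_sqrt (by norm_num)]; norm_num

/-- `√3 - 1`. -/
noncomputable def kap : ℝ := Real.sqrt 3 - 1

lemma kap_sq : kap * kap = 2 - 2 * kap := by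
  have := sqrt3_sq
  unfold kap; nlinarith
lemma kap_lt : kap < 0.7321 := by unfold kap; linarith [sqrt3_lt]
lemma lt_kap : 0.732 < kap := by unfold kap; linarith [lt_sqrt3]

/-- Truncation to `[-1,1]`. -/
noncomputable def cl (s : ℝ) : ℝ := max (-1) (min s 1)

lemma cl_lip (s t : ℝ) : |cl s - cl t| ≤ |s - t| := by
  unfold cl
  refine (abs_max_sub_max_le_max _ _ _ _).trans ?_
  rw [sub_self, abs_zero, max_eq_right (abs_nonneg _)]
  refine (abs_min_sub_min_le_max _ _ _ _).trans ?_
  rw [sub_self, abs_zero, max_eq_left (abs_nonneg _)]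

lemma cl_of {s : ℝ} (h1 : -1 ≤ s) (h2 : s ≤ 1) : cl s = s := by
  unfold cl; rw [min_eq_left h2, max_eq_right h1]

/-- `g` has modulus `min |X| |Y|`. -/
noncomputable def gg (X Y : ℝ) : ℝ := (|X + Y| - |X - Y|) / 2

/-- The base functions. -/
noncomputable def ph (A B C X Y : ℝ) : ℝ := A * X + B * Y + C * kap * gg X Y

lemma ph_lip {A B C al be : ℝ} (h1 : |A + B| + |C| * kap ≤ 2 * al)
    (h2 : |A - B| + |C| * kap ≤ 2 * be) (h3 : al ^ 2 + be ^ 2 ≤ 1 / 2) {X Y X' Y' D : ℝ}
    (hD : 0 ≤ D) (h : (X - X') ^ 2 + (Y - Y') ^ 2 ≤ D ^ 2) :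
    |ph A B C X Y - ph A B C X' Y'| ≤ D := by
  have hk := lt_kap
  have hkap : 0 ≤ kap := by linarith
  set a := |(X + Y) - (X' + Y')| with ha
  set b := |(X - Y) - (X' - Y')| with hb
  have ha0 : 0 ≤ a := abs_nonneg _
  have hb0 : 0 ≤ b := abs_nonneg _
  have hab : a ^ 2 + b ^ 2 ≤ 2 * D ^ 2 := by
    rw [ha, hb, sq_abs, sq_abs]; nlinarith
  have e : ph A B C X Y - ph A B C X' Y' = (A + B) / 2 * ((X + Y) - (X' + Y')) +
      (A - B) / 2 * ((X - Y) - (X' - Y')) + C * kap / 2 * (|X + Y| - |X' + Y'|)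
      - C * kap / 2 * (|X - Y| - |X' - Y'|) := by
    unfold ph gg; ring
  have t1 : |(A + B) / 2 * ((X + Y) - (X' + Y'))| = |A + B| / 2 * a := by
    rw [abs_mul, abs_div, abs_two]
  have t2 : |(A - B) / 2 * ((X - Y) - (X' - Y'))| = |A - B| / 2 * b := by
    rw [abs_mul, abs_div, abs_two]
  have t3 : |C * kap / 2 * (|X + Y| - |X' + Y'|)| ≤ |C| * kap / 2 * a := by
    rw [abs_mul, abs_div, abs_two, abs_mul, abs_of_nonneg hkap]
    gcongr
    exact abs_abs_sub_abs_le_abs_sub _ _
  have t4 : |C * kap / 2 * (|X - Y| - |X' - Y'|)| ≤ |C| * kap / 2 * b := by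
    rw [abs_mul, abs_div, abs_two, abs_mul, abs_of_nonneg hkap]
    gcongr
    exact abs_abs_sub_abs_le_abs_sub _ _
  have hle : |ph A B C X Y - ph A B C X' Y'| ≤ al * a + be * b := by
    rw [e]
    have s1 := abs_sub ((A + B) / 2 * ((X + Y) - (X' + Y')) +
      (A - B) / 2 * ((X - Y) - (X' - Y')) + C * kap / 2 * (|X + Y| - |X' + Y'|))
      (C * kap / 2 * (|X - Y| - |X' - Y'|))
    have s2 := abs_add_le ((A + B) / 2 * ((X + Y) - (X' + Y')) +
      (A - B) / 2 * ((X - Y) - (X' - Y'))) (C * kap / 2 * (|X + Y| - |X' + Y'|))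
    have s3 := abs_add_le ((A + B) / 2 * ((X + Y) - (X' + Y')))
      ((A - B) / 2 * ((X - Y) - (X' - Y')))
    have m1 : (|A + B| / 2 + |C| * kap / 2) * a ≤ al * a :=
      mul_le_mul_of_nonneg_right (by linarith) ha0
    have m2 : (|A - B| / 2 + |C| * kap / 2) * b ≤ be * b :=
      mul_le_mul_of_nonneg_right (by linarith) hb0
    nlinarith
  refine hle.trans ?_
  have hsq : (al * a + be * b) ^ 2 ≤ D ^ 2 := by
    have c1 : (al * a + be * b) ^ 2 ≤ (al ^ 2 + be ^ 2) * (a ^ 2 + b ^ 2) := by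
      nlinarith [sq_nonneg (al * b - be * a)]
    have c2 : (al ^ 2 + be ^ 2) * (a ^ 2 + b ^ 2) ≤ 1 / 2 * (2 * D ^ 2) := by
      apply mul_le_mul h3 hab (by positivity) (by norm_num)
    linarith
  exact abs_le_of_sq_le_sq' hsq hD |>.2

/-- The linear function `⟨e₁, x - v₁⟩`. -/
noncomputable def f1 (x : E2) : ℝ := (x 0 - 1) / 2 + Real.sqrt 3 / 2 * (x 1 - 1)

/-- The projection to the half plane. -/
noncomputable def pr0 (x : E2) : ℝ := x 0 - max (f1 x) 0 / 2
noncomputable def pr1 (x : E2) : ℝ := x 1 - max (f1 x) 0 * (Real.sqrt 3 / 2)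

/-- The calibrating functions. -/
noncomputable def LL (A B C s : ℝ) (x : E2) : ℝ :=
  ph A B C (cl (pr0 x)) (cl (pr1 x)) + s * max (f1 x) 0

lemma line_form (b : ℝ) : cl (1 - Real.sqrt 3 * b) = 1 - min (Real.sqrt 3 * max b 0) 2 ∧
    cl (1 + b) = 1 - min (max (-b) 0) 2 ∧
    gg (cl (1 - Real.sqrt 3 * b)) (cl (1 + b))
      = 1 - min (Real.sqrt 3 * max b 0) 2 - min (max (-b) 0) 2 := by
  have h3 := lt_sqrt3
  have hX : cl (1 - Real.sqrt 3 * b) = 1 - min (Real.sqrt 3 * max b 0) 2 := by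
    unfold cl
    rcases le_total b 0 with hb | hb
    · rw [max_eq_right hb, mul_zero, min_eq_left (by norm_num : (0:ℝ) ≤ 2),
        min_eq_right (by nlinarith), max_eq_right (by norm_num)]; ring
    · rw [max_eq_left hb, min_eq_left (by nlinarith [mul_nonneg (Real.sqrt_nonneg 3) hb])]
      rcases le_total (Real.sqrt 3 * b) 2 with h | h
      · rw [min_eq_left h, max_eq_right (by linarith)]
      · rw [min_eq_right h, max_eq_left (by linarith)]; norm_num
  have hY : cl (1 + b) = 1 - min (max (-b) 0) 2 := by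
    unfold cl
    rcases le_total b 0 with hb | hb
    · rw [max_eq_left (by linarith : (0:ℝ) ≤ -b), min_eq_left (by linarith : 1 + b ≤ 1)]
      rcases le_total (-b) 2 with h | h
      · rw [min_eq_left h, max_eq_right (by linarith)]; ring
      · rw [min_eq_right h, max_eq_left (by linarith)]; norm_num
    · rw [max_eq_right (by linarith : -b ≤ (0:ℝ)), min_eq_left (by norm_num : (0:ℝ) ≤ 2),
        min_eq_right (by linarith), max_eq_right (by norm_num)]; ring
  refine ⟨hX, hY, ?_⟩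
  rw [hX, hY]
  unfold gg
  rcases le_total b 0 with hb | hb
  · rw [max_eq_right hb, mul_zero, min_eq_left (by norm_num : (0:ℝ) ≤ 2)]
    set v := min (max (-b) 0) 2 with hv
    have v0 : 0 ≤ v := le_min (le_max_right _ _) (by norm_num)
    have v2 : v ≤ 2 := min_le_right _ _
    rw [abs_of_nonneg (by linarith), abs_of_nonneg (by linarith)]; ring
  · rw [max_eq_right (by linarith : -b ≤ (0:ℝ)), min_eq_left (by norm_num : (0:ℝ) ≤ 2)]
    set u := min (Real.sqrt 3 * max b 0) 2 with hu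
    have u0 : 0 ≤ u := le_min (by positivity) (by norm_num)
    have u2 : u ≤ 2 := min_le_right _ _
    rw [abs_of_nonneg (by linarith), abs_of_nonpos (by linarith)]; ring

/-- Lipschitz bound on the boundary line of the half plane. -/
lemma line_lip {A B C T : ℝ} (hp : Real.sqrt 3 * |A + C * kap| ≤ 2 * T)
    (hq : |B + C * kap| ≤ 2 * T) (b b' : ℝ) :
    |ph A B C (cl (1 - Real.sqrt 3 * b)) (cl (1 + b)) -
      ph A B C (cl (1 - Real.sqrt 3 * b')) (cl (1 + b'))| ≤ 2 * T * |b - b'| := by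
  obtain ⟨h1, h2, h3⟩ := line_form b
  obtain ⟨h1', h2', h3'⟩ := line_form b'
  unfold ph
  rw [h3, h3', h1, h1', h2, h2']
  set m := max b 0
  set n := max (-b) 0
  set m' := max b' 0
  set n' := max (-b') 0
  have e : A * (1 - min (Real.sqrt 3 * m) 2) + B * (1 - min n 2) +
      C * kap * (1 - min (Real.sqrt 3 * m) 2 - min n 2) -
      (A * (1 - min (Real.sqrt 3 * m') 2) + B * (1 - min n' 2) +
      C * kap * (1 - min (Real.sqrt 3 * m') 2 - min n' 2))
      = - ((A + C * kap) * (min (Real.sqrt 3 * m) 2 - min (Real.sqrt 3 * m') 2))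
        - (B + C * kap) * (min n 2 - min n' 2) := by ring
  rw [e]
  have hs : (0:ℝ) ≤ Real.sqrt 3 := Real.sqrt_nonneg 3
  have k1 : |min (Real.sqrt 3 * m) 2 - min (Real.sqrt 3 * m') 2| ≤ Real.sqrt 3 * |m - m'| := by
    refine (abs_min_sub_min_le_max _ _ _ _).trans ?_
    rw [sub_self, abs_zero, max_eq_left (abs_nonneg _), ← mul_sub, abs_mul, abs_of_nonneg hs]
  have k2 : |min n 2 - min n' 2| ≤ |n - n'| := by
    refine (abs_min_sub_min_le_max _ _ _ _).trans ?_
    rw [sub_self, abs_zero, max_eq_left (abs_nonneg _)]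
  have k3 : |m - m'| + |n - n'| = |b - b'| := by
    simp only [m, n, m', n']
    rcases le_total b 0 with hb | hb <;> rcases le_total b' 0 with hb' | hb'
    · rw [max_eq_right hb, max_eq_right hb', max_eq_left (by linarith), max_eq_left (by linarith),
        sub_self, abs_zero, zero_add, ← abs_neg]; congr 1; ring
    · rw [max_eq_right hb, max_eq_left hb', max_eq_left (by linarith), max_eq_right (by linarith),
        abs_of_nonpos (by linarith), abs_of_nonneg (by linarith), abs_of_nonpos (by linarith)]; ring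
    · rw [max_eq_left hb, max_eq_right hb', max_eq_right (by linarith), max_eq_left (by linarith),
        abs_of_nonneg (by linarith), abs_of_nonpos (by linarith), abs_of_nonneg (by linarith)]; ring
    · rw [max_eq_left hb, max_eq_left hb', max_eq_right (by linarith), max_eq_right (by linarith),
        sub_self, abs_zero, add_zero]
  calc |(- ((A + C * kap) * (min (Real.sqrt 3 * m) 2 - min (Real.sqrt 3 * m') 2))
        - (B + C * kap) * (min n 2 - min n' 2))|
      ≤ |(- ((A + C * kap) * (min (Real.sqrt 3 * m) 2 - min (Real.sqrt 3 * m') 2)))|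
        + |(B + C * kap) * (min n 2 - min n' 2)| := abs_sub _ _
    _ = |A + C * kap| * |min (Real.sqrt 3 * m) 2 - min (Real.sqrt 3 * m') 2|
        + |B + C * kap| * |min n 2 - min n' 2| := by rw [abs_neg, abs_mul, abs_mul]
    _ ≤ |A + C * kap| * (Real.sqrt 3 * |m - m'|) + |B + C * kap| * |n - n'| := by gcongr
    _ = (Real.sqrt 3 * |A + C * kap|) * |m - m'| + |B + C * kap| * |n - n'| := by ring
    _ ≤ 2 * T * |m - m'| + 2 * T * |n - n'| := by gcongr
    _ = 2 * T * |b - b'| := by rw [← k3]; ring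

lemma f1_smul (x y : E2) (c : ℝ) : f1 (x + c • (y - x)) = (1 - c) * f1 x + c * f1 y := by
  unfold f1
  simp only [PiLp.add_apply, PiLp.smul_apply, PiLp.sub_apply, smul_eq_mul]
  ring

/-- The calibrating functions are `1`-Lipschitz. -/
lemma LL_lip {A B C s al be T : ℝ} (h1 : |A + B| + |C| * kap ≤ 2 * al)
    (h2 : |A - B| + |C| * kap ≤ 2 * be) (h3 : al ^ 2 + be ^ 2 ≤ 1 / 2)
    (hp : Real.sqrt 3 * |A + C * kap| ≤ 2 * T)
    (hq : |B + C * kap| ≤ 2 * T) (hs : T ^ 2 + s ^ 2 ≤ 1) (x y : E2) :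
    |LL A B C s x - LL A B C s y| ≤ dist x y := by
  have h33 := sqrt3_sq
  -- both points in the lower half plane
  have low : ∀ x y : E2, f1 x ≤ 0 → f1 y ≤ 0 → |LL A B C s x - LL A B C s y| ≤ dist x y := by
    intro x y hx hy
    unfold LL pr0 pr1
    rw [max_eq_right hx, max_eq_right hy]
    simp only [mul_zero, zero_div, sub_zero, add_zero, zero_mul]
    apply ph_lip h1 h2 h3 dist_nonneg
    rw [dist_sq]
    have c1 := cl_lip (x 0) (y 0)
    have c2 := cl_lip (x 1) (y 1)
    have d1 := sq_le_sq.2 c1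
    have d2 := sq_le_sq.2 c2
    linarith
  -- both points in the upper half plane
  have upp : ∀ x y : E2, 0 ≤ f1 x → 0 ≤ f1 y → |LL A B C s x - LL A B C s y| ≤ dist x y := by
    intro x y hx hy
    have key : ∀ z : E2, 0 ≤ f1 z → pr0 z = 1 - Real.sqrt 3 * (pr1 z - 1) ∧
        pr1 z = 1 + (pr1 z - 1) := by
      intro z hz
      refine ⟨?_, by ring⟩
      unfold pr0 pr1
      rw [max_eq_left hz]
      unfold f1
      linear_combination (-(z 0 - 1) / 4 + (z 1 - 1) * (-Real.sqrt 3 / 4)) * h33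
    obtain ⟨kx, kx'⟩ := key x hx
    obtain ⟨ky, ky'⟩ := key y hy
    have hl := line_lip (A := A) (B := B) (C := C) (T := T) hp hq (pr1 x - 1) (pr1 y - 1)
    rw [← kx, ← ky, ← kx', ← ky'] at hl
    have e1 : pr1 x - 1 - (pr1 y - 1) = pr1 x - pr1 y := by ring
    rw [e1] at hl
    unfold LL
    rw [max_eq_left hx, max_eq_left hy]
    set D := |f1 x - f1 y| with hD
    set d := |pr1 x - pr1 y| with hd
    have hd0 : 0 ≤ d := abs_nonneg _
    have hD0 : 0 ≤ D := abs_nonneg _
    have hdist : dist x y ^ 2 = (2 * d) ^ 2 + D ^ 2 := by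
      rw [dist_sq, hd, hD, mul_pow, sq_abs, sq_abs]
      unfold pr1
      rw [max_eq_left hx, max_eq_left hy]
      unfold f1
      set X0 := x 0
      set X1 := x 1
      set Y0 := y 0
      set Y1 := y 1
      set w := Real.sqrt 3
      linear_combination (-(X0 - Y0) ^ 2 / 4 - (X0 - Y0) * (X1 - Y1) * w / 2
        + (X1 - Y1) ^ 2 * (1 - w * w / 4)) * h33
    have hle : |ph A B C (cl (pr0 x)) (cl (pr1 x)) + s * f1 x -
        (ph A B C (cl (pr0 y)) (cl (pr1 y)) + s * f1 y)| ≤ T * (2 * d) + |s| * D := by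
      have e2 : ph A B C (cl (pr0 x)) (cl (pr1 x)) + s * f1 x -
        (ph A B C (cl (pr0 y)) (cl (pr1 y)) + s * f1 y) =
        (ph A B C (cl (pr0 x)) (cl (pr1 x)) - ph A B C (cl (pr0 y)) (cl (pr1 y)))
          + s * (f1 x - f1 y) := by ring
      rw [e2]
      refine (abs_add_le _ _).trans ?_
      rw [abs_mul s]
      linarith
    refine hle.trans ?_
    have hsq : (T * (2 * d) + |s| * D) ^ 2 ≤ dist x y ^ 2 := by
      rw [hdist]
      have c1 : (T * (2 * d) + |s| * D) ^ 2 ≤ (T ^ 2 + |s| ^ 2) * ((2 * d) ^ 2 + D ^ 2) := by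
        nlinarith [sq_nonneg (T * D - |s| * (2 * d))]
      rw [sq_abs] at c1
      have c2 : (T ^ 2 + s ^ 2) * ((2 * d) ^ 2 + D ^ 2) ≤ 1 * ((2 * d) ^ 2 + D ^ 2) :=
        mul_le_mul_of_nonneg_right hs (by positivity)
      linarith
    exact (abs_le_of_sq_le_sq' hsq dist_nonneg).2
  -- mixed case
  have mix : ∀ x y : E2, f1 x ≤ 0 → 0 ≤ f1 y → |LL A B C s x - LL A B C s y| ≤ dist x y := by
    intro x y hx hy
    rcases eq_or_lt_of_le hx with hx0 | hx0
    · exact upp x y hx0.ge hy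
    set c : ℝ := - f1 x / (f1 y - f1 x) with hc
    have hden : 0 < f1 y - f1 x := by linarith
    have hc0 : 0 ≤ c := div_nonneg (by linarith) hden.le
    have hc1 : c ≤ 1 := by rw [hc, div_le_one hden]; linarith
    set z : E2 := x + c • (y - x) with hz
    have hfz : f1 z = 0 := by
      rw [hz, f1_smul, hc]; field_simp; ring
    have d1 : dist x z = c * dist x y := by
      rw [hz, dist_eq_norm, dist_eq_norm]
      have : x - (x + c • (y - x)) = c • (x - y) := by module
      rw [this, norm_smul, Real.norm_eq_abs, abs_of_nonneg hc0]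
    have d2 : dist z y = (1 - c) * dist x y := by
      rw [hz, dist_eq_norm, dist_eq_norm]
      have : x + c • (y - x) - y = (1 - c) • (x - y) := by module
      rw [this, norm_smul, Real.norm_eq_abs, abs_of_nonneg (by linarith)]
    have b1 := low x z hx hfz.le
    have b2 := upp z y hfz.ge hy
    calc |LL A B C s x - LL A B C s y|
        ≤ |LL A B C s x - LL A B C s z| + |LL A B C s z - LL A B C s y| := abs_sub_le _ _ _
      _ ≤ dist x z + dist z y := add_le_add b1 b2
      _ = dist x y := by rw [d1, d2]; ring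
  rcases le_total (f1 x) 0 with hx | hx <;> rcases le_total (f1 y) 0 with hy | hy
  · exact low x y hx hy
  · exact mix x y hx hy
  · rw [abs_sub_comm, dist_comm]; exact mix y x hy hx
  · exact upp x y hx hy

end Pool.Agent.Y459.NS
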