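import Mathlib
import Pool.Agent.Y459.NS.Square

/-!
# Lower bound for connected sets through the vertices of the square and a point of the half plane
-/

set_option autoImplicit false

open scoped MeasureTheory ENNReal InnerProductSpace
open MeasureTheory Set Filter Topology

namespace Pool.Agent.Y459.NS

lemma good0 {s : ℝ} (hs : s ^ 2 ≤ 1) (x y : E2) :
    |LL 0 0 0 s x - LL 0 0 0 s y| ≤ dist x y :=
  LL_lip (al := 0) (be := 0) (T := 0) (by simp) (by simp) (by norm_num) (by simp) (by simp)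
    (by linarith) x y

lemma half_kap : (1 + kap / 2) / 2 = (2 + kap) / 4 := by ring

lemma albe1 : (kap / 4) ^ 2 + ((2 + kap) / 4) ^ 2 ≤ 1 / 2 := by
  have := kap_sq; nlinarith

lemma albe2 : ((2 + kap) / 4) ^ 2 + (kap / 4) ^ 2 ≤ 1 / 2 := by
  have := kap_sq; nlinarith

lemma good2 {s : ℝ} (hs : 9 / 16 + s ^ 2 ≤ 1) (x y : E2) :
    |LL (1 / 2) (-1 / 2) (1 / 2) s x - LL (1 / 2) (-1 / 2) (1 / 2) s y| ≤ dist x y := by
  have h1 := lt_kap; have h2 := kap_lt; have h3 := sqrt3_sq; have h4 := lt_sqrt3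
  have h5 := sqrt3_lt; have hk : kap = Real.sqrt 3 - 1 := rfl
  refine LL_lip (al := kap / 4) (be := (2 + kap) / 4) (T := 3 / 4) ?_ ?_ albe1 ?_ ?_ ?_ x y
  · rw [abs_of_nonneg (by norm_num), abs_of_nonneg (by norm_num)]; linarith
  · rw [abs_of_nonneg (by norm_num), abs_of_nonneg (by norm_num)]; linarith
  · rw [abs_of_nonneg (by linarith), hk]; nlinarith
  · rw [abs_of_nonpos (by linarith)]; linarith
  · linarith

lemma good3 {s : ℝ} (hs : 1 / 64 + s ^ 2 ≤ 1) (x y : E2) :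
    |LL (1 / 2) (1 / 2) (-1 / 2) s x - LL (1 / 2) (1 / 2) (-1 / 2) s y| ≤ dist x y := by
  have h1 := lt_kap; have h2 := kap_lt; have h3 := sqrt3_sq; have h4 := lt_sqrt3
  have h5 := sqrt3_lt; have hk : kap = Real.sqrt 3 - 1 := rfl
  refine LL_lip (al := (2 + kap) / 4) (be := kap / 4) (T := 1 / 8) ?_ ?_ albe2 ?_ ?_ ?_ x y
  · rw [abs_of_nonneg (by norm_num), abs_of_nonpos (by norm_num)]; linarith
  · rw [abs_of_nonneg (by norm_num), abs_of_nonpos (by norm_num)]; linarith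
  · rw [abs_of_nonneg (by linarith), hk]; nlinarith
  · rw [abs_of_nonneg (by linarith)]; linarith
  · linarith

lemma good4 {s : ℝ} (hs : 3 / 16 + s ^ 2 ≤ 1) (x y : E2) :
    |LL (-1 / 2) (1 / 2) (1 / 2) s x - LL (-1 / 2) (1 / 2) (1 / 2) s y| ≤ dist x y := by
  have h1 := lt_kap; have h2 := kap_lt; have h3 := sqrt3_sq; have h4 := lt_sqrt3
  have h5 := sqrt3_lt; have hk : kap = Real.sqrt 3 - 1 := rfl
  refine LL_lip (al := kap / 4) (be := (2 + kap) / 4) (T := Real.sqrt 3 / 4) ?_ ?_ albe1 ?_ ?_ ?_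
    x y
  · rw [abs_of_nonneg (by norm_num), abs_of_nonneg (by norm_num)]; linarith
  · rw [abs_of_nonpos (by norm_num), abs_of_nonneg (by norm_num)]; linarith
  · rw [abs_of_nonpos (by linarith), hk]; nlinarith
  · rw [abs_of_nonneg (by linarith), hk]; linarith
  · nlinarith

lemma good23 {s : ℝ} (hs : 3 / 4 + s ^ 2 ≤ 1) (x y : E2) :
    |LL 1 0 0 s x - LL 1 0 0 s y| ≤ dist x y := by
  have h3 := sqrt3_sq
  refine LL_lip (al := 1 / 2) (be := 1 / 2) (T := Real.sqrt 3 / 2) ?_ ?_ (by norm_num) ?_ ?_ ?_ x y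
  · simp
  · simp
  · simp; linarith
  · simp; positivity
  · nlinarith

lemma good24 {s : ℝ} (hs : 4 / 9 + s ^ 2 ≤ 1) (x y : E2) :
    |LL 0 0 1 s x - LL 0 0 1 s y| ≤ dist x y := by
  have h1 := lt_kap; have h2 := kap_lt; have h3 := sqrt3_sq; have h4 := lt_sqrt3
  have h5 := sqrt3_lt; have hk : kap = Real.sqrt 3 - 1 := rfl
  refine LL_lip (al := kap / 2) (be := kap / 2) (T := 2 / 3) ?_ ?_ ?_ ?_ ?_ ?_ x y
  · simp; linarith
  · simp; linarith
  · nlinarith
  · rw [abs_of_nonneg (by linarith), hk]; nlinarith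
  · rw [abs_of_nonneg (by linarith)]; linarith
  · linarith

lemma good34 {s : ℝ} (hs : 1 / 4 + s ^ 2 ≤ 1) (x y : E2) :
    |LL 0 1 0 s x - LL 0 1 0 s y| ≤ dist x y := by
  refine LL_lip (al := 1 / 2) (be := 1 / 2) (T := 1 / 2) ?_ ?_ (by norm_num) ?_ ?_ ?_ x y
  · simp
  · simp
  · simp
  · simp
  · linarith

lemma good234 {s : ℝ} (hs : 9 / 16 + s ^ 2 ≤ 1) (x y : E2) :
    |LL (1 / 2) (1 / 2) (1 / 2) s x - LL (1 / 2) (1 / 2) (1 / 2) s y| ≤ dist x y := by
  have h1 := lt_kap; have h2 := kap_lt; have h3 := sqrt3_sq; have h4 := lt_sqrt3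
  have h5 := sqrt3_lt; have hk : kap = Real.sqrt 3 - 1 := rfl
  refine LL_lip (al := (2 + kap) / 4) (be := kap / 4) (T := 3 / 4) ?_ ?_ albe2 ?_ ?_ ?_ x y
  · rw [abs_of_nonneg (by norm_num), abs_of_nonneg (by norm_num)]; linarith
  · rw [abs_of_nonneg (by norm_num), abs_of_nonneg (by norm_num)]; linarith
  · rw [abs_of_nonneg (by linarith), hk]; nlinarith
  · rw [abs_of_nonneg (by linarith)]; linarith
  · linarith

/-- The parameters of the four functions. -/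
noncomputable def cA : Fin 4 → ℝ := ![1 / 2, 1 / 2, -1 / 2, 0]
noncomputable def cB : Fin 4 → ℝ := ![-1 / 2, 1 / 2, 1 / 2, 0]
noncomputable def cC : Fin 4 → ℝ := ![1 / 2, -1 / 2, 1 / 2, 0]
noncomputable def cS : Fin 4 → ℝ := ![2 / 5, 1 / 10, 1 / 10, -1]

lemma LL_sum (I : Finset (Fin 4)) (x : E2) :
    ∑ i ∈ I, LL (cA i) (cB i) (cC i) (cS i) x
      = LL (∑ i ∈ I, cA i) (∑ i ∈ I, cB i) (∑ i ∈ I, cC i) (∑ i ∈ I, cS i) x := by
  unfold LL ph
  rw [Finset.sum_add_distrib, Finset.sum_add_distrib, Finset.sum_add_distrib]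
  simp only [Finset.sum_mul]

lemma all_good (I : Finset (Fin 4)) (x y : E2) :
    ∑ i ∈ I, (LL (cA i) (cB i) (cC i) (cS i) x - LL (cA i) (cB i) (cC i) (cS i) y)
      ≤ dist x y := by
  rw [Finset.sum_sub_distrib, LL_sum, LL_sum]
  refine le_trans (le_abs_self _) ?_
  have e : ∀ c : Fin 4 → ℝ, ∑ i ∈ I, c i = (if (0 : Fin 4) ∈ I then c 0 else 0) +
      (if (1 : Fin 4) ∈ I then c 1 else 0) + (if (2 : Fin 4) ∈ I then c 2 else 0) +
      (if (3 : Fin 4) ∈ I then c 3 else 0) := by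
    intro c
    have e1 : ∑ i ∈ I, c i = ∑ i, if i ∈ I then c i else 0 := by
      rw [Finset.sum_ite_mem, Finset.univ_inter]
    rw [e1, Fin.sum_univ_four]
  rw [e cA, e cB, e cC, e cS]
  have a0 : cA 0 = 1 / 2 := rfl
  have a1 : cA 1 = 1 / 2 := rfl
  have a2 : cA 2 = -1 / 2 := rfl
  have a3 : cA 3 = 0 := rfl
  have b0 : cB 0 = -1 / 2 := rfl
  have b1 : cB 1 = 1 / 2 := rfl
  have b2 : cB 2 = 1 / 2 := rfl
  have b3 : cB 3 = 0 := rfl
  have c0 : cC 0 = 1 / 2 := rfl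
  have c1 : cC 1 = -1 / 2 := rfl
  have c2 : cC 2 = 1 / 2 := rfl
  have c3 : cC 3 = 0 := rfl
  have s0 : cS 0 = 2 / 5 := rfl
  have s1 : cS 1 = 1 / 10 := rfl
  have s2 : cS 2 = 1 / 10 := rfl
  have s3 : cS 3 = -1 := rfl
  rw [a0, a1, a2, a3, b0, b1, b2, b3, c0, c1, c2, c3, s0, s1, s2, s3]
  by_cases m0 : (0 : Fin 4) ∈ I <;> by_cases m1 : (1 : Fin 4) ∈ I <;>
    by_cases m2 : (2 : Fin 4) ∈ I <;> by_cases m3 : (3 : Fin 4) ∈ I <;>
    simp only [m0, m1, m2, m3, if_true, if_false]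
  · have := good234 (s := 2 / 5 + 1 / 10 + 1 / 10 + -1) (by norm_num) x y
    norm_num at this ⊢; exact this
  · have := good234 (s := 2 / 5 + 1 / 10 + 1 / 10 + 0) (by norm_num) x y
    norm_num at this ⊢; exact this
  · have := good23 (s := 2 / 5 + 1 / 10 + 0 + -1) (by norm_num) x y
    norm_num at this ⊢; exact this
  · have := good23 (s := 2 / 5 + 1 / 10 + 0 + 0) (by norm_num) x y
    norm_num at this ⊢; exact this
  · have := good24 (s := 2 / 5 + 0 + 1 / 10 + -1) (by norm_num) x y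
    norm_num at this ⊢; exact this
  · have := good24 (s := 2 / 5 + 0 + 1 / 10 + 0) (by norm_num) x y
    norm_num at this ⊢; exact this
  · have := good2 (s := 2 / 5 + 0 + 0 + -1) (by norm_num) x y
    norm_num at this ⊢; exact this
  · have := good2 (s := 2 / 5 + 0 + 0 + 0) (by norm_num) x y
    norm_num at this ⊢; exact this
  · have := good34 (s := 0 + 1 / 10 + 1 / 10 + -1) (by norm_num) x y
    norm_num at this ⊢; exact this
  · have := good34 (s := 0 + 1 / 10 + 1 / 10 + 0) (by norm_num) x y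
    norm_num at this ⊢; exact this
  · have := good3 (s := 0 + 1 / 10 + 0 + -1) (by norm_num) x y
    norm_num at this ⊢; exact this
  · have := good3 (s := 0 + 1 / 10 + 0 + 0) (by norm_num) x y
    norm_num at this ⊢; exact this
  · have := good4 (s := 0 + 0 + 1 / 10 + -1) (by norm_num) x y
    norm_num at this ⊢; exact this
  · have := good4 (s := 0 + 0 + 1 / 10 + 0) (by norm_num) x y
    norm_num at this ⊢; exact this
  · have := good0 (s := 0 + 0 + 0 + -1) (by norm_num) x y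
    norm_num at this ⊢; exact this
  · have := good0 (s := 0 + 0 + 0 + 0) (by norm_num) x y
    norm_num at this ⊢; exact this

/-- The vertices of the square. -/
noncomputable def v1 : E2 := !₂[1, 1]
noncomputable def v2 : E2 := !₂[-1, 1]
noncomputable def v3 : E2 := !₂[-1, -1]
noncomputable def v4 : E2 := !₂[1, -1]

lemma v10 : v1 0 = 1 := rfl
lemma v11 : v1 1 = 1 := rfl
lemma v20 : v2 0 = -1 := rfl
lemma v21 : v2 1 = 1 := rfl
lemma v30 : v3 0 = -1 := rfl
lemma v31 : v3 1 = -1 := rfl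
lemma v40 : v4 0 = 1 := rfl
lemma v41 : v4 1 = -1 := rfl

lemma LL_low {x : E2} (hf : f1 x ≤ 0) (h0 : -1 ≤ x 0) (h0' : x 0 ≤ 1) (h1 : -1 ≤ x 1)
    (h1' : x 1 ≤ 1) (A B C s : ℝ) : LL A B C s x = ph A B C (x 0) (x 1) := by
  unfold LL pr0 pr1
  rw [max_eq_right hf]
  simp only [zero_div, zero_mul, sub_zero, mul_zero, add_zero]
  rw [cl_of h0 h0', cl_of h1 h1']

/-- A connected set through the vertices of the square and a point `q` of the half plane. -/
theorem sq_lower {K : Set E2} (hK : IsPreconnected K) (h1 : v1 ∈ K) (h2 : v2 ∈ K) (h3 : v3 ∈ K)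
    (h4 : v4 ∈ K) {q : E2} (hq : q ∈ K) (hfq : 0 ≤ f1 q) :
    ENNReal.ofReal (2 + 2 * Real.sqrt 3 + f1 q) ≤ μH[1] K := by
  have key := Pool.Agent.H258R2.Calib.calib (S := K) hK
    (fun i x => LL (cA i) (cB i) (cC i) (cS i) x) all_good ![v2, v3, v4, q]
    (by intro i; fin_cases i <;> simp [h2, h3, h4, hq]) v1 h1
  refine le_trans (ENNReal.ofReal_le_ofReal (le_of_eq ?_)) key
  rw [Fin.sum_univ_four]
  have hs := lt_sqrt3
  have fv1 : f1 v1 = 0 := by unfold f1; rw [v10, v11]; ring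
  have fv2 : f1 v2 ≤ 0 := by unfold f1; rw [v20, v21]; linarith
  have fv3 : f1 v3 ≤ 0 := by unfold f1; rw [v30, v31]; linarith
  have fv4 : f1 v4 ≤ 0 := by unfold f1; rw [v40, v41]; linarith
  have e1 : ∀ A B C s : ℝ, LL A B C s v1 = ph A B C 1 1 := fun A B C s => by
    rw [LL_low fv1.le (by rw [v10]; norm_num) (by rw [v10]) (by rw [v11]; norm_num)
      (by rw [v11]), v10, v11]
  have e2 : ∀ A B C s : ℝ, LL A B C s v2 = ph A B C (-1) 1 := fun A B C s => by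
    rw [LL_low fv2 (by rw [v20]) (by rw [v20]; norm_num) (by rw [v21]; norm_num)
      (by rw [v21]), v20, v21]
  have e3 : ∀ A B C s : ℝ, LL A B C s v3 = ph A B C (-1) (-1) := fun A B C s => by
    rw [LL_low fv3 (by rw [v30]) (by rw [v30]; norm_num) (by rw [v31])
      (by rw [v31]; norm_num), v30, v31]
  have e4 : ∀ A B C s : ℝ, LL A B C s v4 = ph A B C 1 (-1) := fun A B C s => by
    rw [LL_low fv4 (by rw [v40]; norm_num) (by rw [v40]) (by rw [v41])
      (by rw [v41]; norm_num), v40, v41]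
  have e5 : LL 0 0 0 (-1) q = - f1 q := by
    unfold LL ph; rw [max_eq_left hfq]; ring
  show 2 + 2 * Real.sqrt 3 + f1 q = (LL (1 / 2) (-1 / 2) (1 / 2) (2 / 5) v1 -
      LL (1 / 2) (-1 / 2) (1 / 2) (2 / 5) v2) + (LL (1 / 2) (1 / 2) (-1 / 2) (1 / 10) v1 -
      LL (1 / 2) (1 / 2) (-1 / 2) (1 / 10) v3) + (LL (-1 / 2) (1 / 2) (1 / 2) (1 / 10) v1 -
      LL (-1 / 2) (1 / 2) (1 / 2) (1 / 10) v4) + (LL 0 0 0 (-1) v1 - LL 0 0 0 (-1) q)
  rw [e1, e1, e1, e1, e2, e3, e4, e5]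
  have hg1 : gg 1 1 = 1 := by unfold gg; norm_num
  have hg2 : gg (-1) 1 = -1 := by unfold gg; norm_num
  have hg3 : gg (-1) (-1) = 1 := by unfold gg; norm_num
  have hg4 : gg 1 (-1) = -1 := by unfold gg; norm_num
  unfold ph
  rw [hg1, hg2, hg3, hg4]
  unfold kap
  ring

end Pool.Agent.Y459.NS
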