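import Mathlib
import Pool.Agent.H258R2.Calib.Lemma

/-!
# Convex polygonal paths with infinitely many corners

Linear calibration of a convex polygonal path of total turning less than sixty degrees.
-/

set_option autoImplicit false

open scoped MeasureTheory ENNReal InnerProductSpace
open MeasureTheory Set Filter Topology

namespace Pool.Agent.Y459.NS

section Lin

variable {E : Type*} [NormedAddCommGroup E] [InnerProductSpace ℝ E] [MeasurableSpace E]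
  [BorelSpace E]

/-- Linear calibrations. -/
lemma lin_calib {ι : Type*} [Fintype ι] {K : Set E} (hK : IsPreconnected K) (h : ι → E)
    (hh : ∀ I : Finset ι, ‖∑ i ∈ I, h i‖ ≤ 1) (p : ι → E) (hp : ∀ i, p i ∈ K) (r : E)
    (hr : r ∈ K) :
    ENNReal.ofReal (∑ i, ⟪h i, p i - r⟫_ℝ) ≤ μH[1] K := by
  have key := Pool.Agent.H258R2.Calib.calib (S := K) hK (fun i x => - ⟪h i, x⟫_ℝ) (by
    intro I x y
    have e : ∑ i ∈ I, ((- ⟪h i, x⟫_ℝ) - (- ⟪h i, y⟫_ℝ)) = ⟪∑ i ∈ I, h i, y - x⟫_ℝ := by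
      rw [sum_inner]
      refine Finset.sum_congr rfl fun i _ => ?_
      rw [inner_sub_right]; ring
    rw [e]
    calc ⟪∑ i ∈ I, h i, y - x⟫_ℝ ≤ ‖∑ i ∈ I, h i‖ * ‖y - x‖ := real_inner_le_norm _ _
      _ ≤ 1 * ‖y - x‖ := by gcongr; exact hh I
      _ = dist x y := by rw [one_mul, dist_comm, dist_eq_norm]) p hp r hr
  refine le_trans (ENNReal.ofReal_le_ofReal (le_of_eq ?_)) key
  refine Finset.sum_congr rfl fun i _ => ?_
  rw [inner_sub_right]; ring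

end Lin

/-- The angles of the edges. -/
noncomputable def th (k : ℕ) : ℝ := 1 - (1 / 2) ^ k

lemma th_zero : th 0 = 0 := by simp [th]

lemma th_lt_one (k : ℕ) : th k < 1 := by
  have : (0 : ℝ) < (1 / 2) ^ k := by positivity
  unfold th; linarith

lemma th_strictMono : StrictMono th := by
  apply strictMono_nat_of_lt_succ
  intro k
  have : (0 : ℝ) < (1 / 2) ^ k := by positivity
  unfold th; rw [pow_succ]; linarith

lemma th_nonneg (k : ℕ) : 0 ≤ th k := by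
  rw [← th_zero]; exact th_strictMono.monotone (Nat.zero_le k)

lemma cos_th_anti {j k : ℕ} (h : j ≤ k) : Real.cos (th k) ≤ Real.cos (th j) := by
  apply Real.cos_le_cos_of_nonneg_of_le_pi (th_nonneg j)
  · linarith [th_lt_one k, Real.pi_gt_three]
  · exact th_strictMono.monotone h

lemma cos_th_strictAnti {j k : ℕ} (h : j < k) : Real.cos (th k) < Real.cos (th j) := by
  apply Real.cos_lt_cos_of_nonneg_of_le_pi (th_nonneg j)
  · linarith [th_lt_one k, Real.pi_gt_three]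
  · exact th_strictMono h

lemma sin_th_mono {j k : ℕ} (h : j ≤ k) : Real.sin (th j) ≤ Real.sin (th k) := by
  apply Real.sin_le_sin_of_le_of_le_pi_div_two
  · linarith [th_nonneg j, Real.pi_gt_three]
  · linarith [th_lt_one k, Real.pi_gt_three]
  · exact th_strictMono.monotone h

lemma sin_th_strictMono {j k : ℕ} (h : j < k) : Real.sin (th j) < Real.sin (th k) := by
  apply Real.sin_lt_sin_of_lt_of_le_pi_div_two
  · linarith [th_nonneg j, Real.pi_gt_three]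
  · linarith [th_lt_one k, Real.pi_gt_three]
  · exact th_strictMono h

lemma cos_th_ge (k : ℕ) : 1 / 2 ≤ Real.cos (th k) := by
  rw [← Real.cos_pi_div_three]
  apply Real.cos_le_cos_of_nonneg_of_le_pi (th_nonneg k)
  · linarith [Real.pi_gt_three]
  · linarith [th_lt_one k, Real.pi_gt_three]

section Dir

variable {E : Type*} [NormedAddCommGroup E] [InnerProductSpace ℝ E]

/-- The direction of the edge number `k`. -/
noncomputable def dir (b₁ b₂ : E) (k : ℕ) : E := Real.cos (th k) • b₁ + Real.sin (th k) • b₂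

/-- The jumps of the direction. -/
noncomputable def jmp (b₁ b₂ : E) (k : ℕ) : E := dir b₁ b₂ k - dir b₁ b₂ (k + 1)

variable {b₁ b₂ : E}

lemma inner_comb (h1 : ‖b₁‖ = 1) (h2 : ‖b₂‖ = 1) (h12 : ⟪b₁, b₂⟫_ℝ = 0) (x y x' y' : ℝ) :
    ⟪x • b₁ + y • b₂, x' • b₁ + y' • b₂⟫_ℝ = x * x' + y * y' := by
  have e1 : ⟪b₁, b₁⟫_ℝ = 1 := by rw [real_inner_self_eq_norm_sq, h1]; norm_num
  have e2 : ⟪b₂, b₂⟫_ℝ = 1 := by rw [real_inner_self_eq_norm_sq, h2]; norm_num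
  have e3 : ⟪b₂, b₁⟫_ℝ = 0 := by rw [real_inner_comm]; exact h12
  simp only [inner_add_left, inner_add_right, inner_smul_left, inner_smul_right, e1, e2, e3, h12,
    conj_trivial]
  ring

lemma inner_dir (h1 : ‖b₁‖ = 1) (h2 : ‖b₂‖ = 1) (h12 : ⟪b₁, b₂⟫_ℝ = 0) (j k : ℕ) :
    ⟪dir b₁ b₂ j, dir b₁ b₂ k⟫_ℝ
      = Real.cos (th j) * Real.cos (th k) + Real.sin (th j) * Real.sin (th k) :=
  inner_comb h1 h2 h12 _ _ _ _

lemma inner_dir_self (h1 : ‖b₁‖ = 1) (h2 : ‖b₂‖ = 1) (h12 : ⟪b₁, b₂⟫_ℝ = 0) (k : ℕ) :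
    ⟪dir b₁ b₂ k, dir b₁ b₂ k⟫_ℝ = 1 := by
  rw [inner_dir h1 h2 h12]
  nlinarith [Real.cos_sq_add_sin_sq (th k)]

lemma norm_dir (h1 : ‖b₁‖ = 1) (h2 : ‖b₂‖ = 1) (h12 : ⟪b₁, b₂⟫_ℝ = 0) (k : ℕ) :
    ‖dir b₁ b₂ k‖ = 1 := by
  have h := inner_dir_self h1 h2 h12 k
  rw [real_inner_self_eq_norm_sq] at h
  have h0 := norm_nonneg (dir b₁ b₂ k)
  nlinarith

lemma jmp_eq (b₁ b₂ : E) (k : ℕ) : jmp b₁ b₂ k
    = (Real.cos (th k) - Real.cos (th (k + 1))) • b₁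
      + (Real.sin (th k) - Real.sin (th (k + 1))) • b₂ := by
  unfold jmp dir; module

lemma inner_jmp_nonneg (h1 : ‖b₁‖ = 1) (h2 : ‖b₂‖ = 1) (h12 : ⟪b₁, b₂⟫_ℝ = 0) (j k : ℕ) :
    0 ≤ ⟪jmp b₁ b₂ j, jmp b₁ b₂ k⟫_ℝ := by
  rw [jmp_eq, jmp_eq, inner_comb h1 h2 h12]
  have c1 := cos_th_anti (Nat.le_succ j)
  have c2 := cos_th_anti (Nat.le_succ k)
  have s1 := sin_th_mono (Nat.le_succ j)
  have s2 := sin_th_mono (Nat.le_succ k)
  simp only [Nat.succ_eq_add_one] at *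
  have := mul_nonneg (sub_nonneg.2 c1) (sub_nonneg.2 c2)
  have := mul_nonneg (sub_nonneg.2 s1) (sub_nonneg.2 s2)
  nlinarith

lemma sum_jmp (b₁ b₂ : E) (n : ℕ) :
    ∑ k ∈ Finset.range n, jmp b₁ b₂ k = dir b₁ b₂ 0 - dir b₁ b₂ n := by
  induction n with
  | zero => simp
  | succ n ih => rw [Finset.sum_range_succ, ih]; unfold jmp; abel

lemma norm_jmp_sq (h1 : ‖b₁‖ = 1) (h2 : ‖b₂‖ = 1) (h12 : ⟪b₁, b₂⟫_ℝ = 0) (k : ℕ) :
    ‖jmp b₁ b₂ k‖ ^ 2 = 2 - 2 * ⟪dir b₁ b₂ k, dir b₁ b₂ (k + 1)⟫_ℝ := by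
  unfold jmp
  rw [norm_sub_sq_real, norm_dir h1 h2 h12, norm_dir h1 h2 h12]; ring

/-- Sums of jumps have norm at most one. -/
lemma norm_sum_jmp (h1 : ‖b₁‖ = 1) (h2 : ‖b₂‖ = 1) (h12 : ⟪b₁, b₂⟫_ℝ = 0) (J : Finset ℕ) :
    ‖∑ k ∈ J, jmp b₁ b₂ k‖ ≤ 1 := by
  classical
  obtain ⟨n, hn⟩ : ∃ n, J ⊆ Finset.range n := J.exists_nat_subset_range
  set A := ∑ k ∈ J, jmp b₁ b₂ k with hA
  set B := ∑ k ∈ Finset.range n \ J, jmp b₁ b₂ k with hB
  have hAB : A + B = dir b₁ b₂ 0 - dir b₁ b₂ n := by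
    rw [hA, hB, ← sum_jmp, add_comm]
    exact Finset.sum_sdiff hn
  have hin : 0 ≤ ⟪A, B⟫_ℝ := by
    rw [hA, hB, sum_inner]
    refine Finset.sum_nonneg fun j _ => ?_
    rw [inner_sum]
    exact Finset.sum_nonneg fun k _ => inner_jmp_nonneg h1 h2 h12 j k
  have hle : ‖dir b₁ b₂ 0 - dir b₁ b₂ n‖ ^ 2 ≤ 1 := by
    rw [norm_sub_sq_real, norm_dir h1 h2 h12, norm_dir h1 h2 h12, inner_dir h1 h2 h12, th_zero,
      Real.cos_zero, Real.sin_zero]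
    linarith [cos_th_ge n]
  rw [← hAB, norm_add_sq_real] at hle
  have h0 := norm_nonneg A
  nlinarith [sq_nonneg ‖B‖]

lemma norm_sum_jmp' (h1 : ‖b₁‖ = 1) (h2 : ‖b₂‖ = 1) (h12 : ⟪b₁, b₂⟫_ℝ = 0) (J : Finset ℕ) :
    ‖- dir b₁ b₂ 0 + ∑ k ∈ J, jmp b₁ b₂ k‖ ≤ 1 := by
  classical
  induction J using Finset.induction_on_max with
  | empty => simp [norm_dir h1 h2 h12]
  | insert m J hm ih =>
    have hmJ : m ∉ J := fun h => lt_irrefl _ (hm m h)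
    rw [Finset.sum_insert hmJ]
    set u := - dir b₁ b₂ 0 + ∑ k ∈ J, jmp b₁ b₂ k with hu
    have e1 : - dir b₁ b₂ 0 + (jmp b₁ b₂ m + ∑ k ∈ J, jmp b₁ b₂ k) = u + jmp b₁ b₂ m := by
      rw [hu]; abel
    rw [e1]
    have hsub : J ⊆ Finset.range m := fun k hk => Finset.mem_range.2 (hm k hk)
    have hin : ⟪u, jmp b₁ b₂ m⟫_ℝ ≤ - (1 - ⟪dir b₁ b₂ m, dir b₁ b₂ (m + 1)⟫_ℝ) := by
      have e2 : - dir b₁ b₂ m = u + ∑ k ∈ Finset.range m \ J, jmp b₁ b₂ k := by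
        have h3 := sum_jmp b₁ b₂ m
        rw [← Finset.sum_sdiff hsub] at h3
        rw [hu]
        have : - dir b₁ b₂ m = - dir b₁ b₂ 0 + (dir b₁ b₂ 0 - dir b₁ b₂ m) := by abel
        rw [this, ← h3]; abel
      have h4 : 0 ≤ ⟪∑ k ∈ Finset.range m \ J, jmp b₁ b₂ k, jmp b₁ b₂ m⟫_ℝ := by
        rw [sum_inner]
        exact Finset.sum_nonneg fun k _ => inner_jmp_nonneg h1 h2 h12 k m
      have h5 : ⟪- dir b₁ b₂ m, jmp b₁ b₂ m⟫_ℝ
          = - (1 - ⟪dir b₁ b₂ m, dir b₁ b₂ (m + 1)⟫_ℝ) := by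
        unfold jmp
        rw [inner_neg_left, inner_sub_right, inner_dir_self h1 h2 h12]
      rw [e2, inner_add_left] at h5
      linarith
    have h6 : ‖u + jmp b₁ b₂ m‖ ^ 2 ≤ 1 := by
      rw [norm_add_sq_real, norm_jmp_sq h1 h2 h12]
      have h7 : ‖u‖ ^ 2 ≤ 1 := by
        have := norm_nonneg u
        nlinarith
      linarith
    have h8 := norm_nonneg (u + jmp b₁ b₂ m)
    nlinarith

end Dir

section Path

variable {E : Type*} [NormedAddCommGroup E] [InnerProductSpace ℝ E]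

/-- The length of the edge number `k + 1`. -/
noncomputable def len (k : ℕ) : ℝ := (1 / 2) ^ (k + 4)

lemma len_pos (k : ℕ) : 0 < len k := by unfold len; positivity

lemma sum_len (n : ℕ) : ∑ k ∈ Finset.range n, len k = 1 / 8 - (1 / 2) ^ (n + 3) := by
  induction n with
  | zero => norm_num
  | succ n ih => rw [Finset.sum_range_succ, ih]; unfold len; ring

/-- The corners of the path. -/
noncomputable def P (b₁ b₂ p₀ : E) : ℕ → E
  | 0 => p₀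
  | k + 1 => P b₁ b₂ p₀ k + len k • dir b₁ b₂ (k + 1)

variable {b₁ b₂ p₀ : E}

lemma P_succ (k : ℕ) : P b₁ b₂ p₀ (k + 1) = P b₁ b₂ p₀ k + len k • dir b₁ b₂ (k + 1) := rfl

/-- The algebraic identity behind the calibration. -/
lemma path_identity (h1 : ‖b₁‖ = 1) (h2 : ‖b₂‖ = 1) (h12 : ⟪b₁, b₂⟫_ℝ = 0) (n : ℕ) :
    ∑ k ∈ Finset.range n, ⟪jmp b₁ b₂ k, P b₁ b₂ p₀ k⟫_ℝ + ⟪dir b₁ b₂ n, P b₁ b₂ p₀ n⟫_ℝ
      = ⟪dir b₁ b₂ 0, p₀⟫_ℝ + ∑ k ∈ Finset.range n, len k := by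
  induction n with
  | zero => simp [P]
  | succ n ih =>
    rw [Finset.sum_range_succ, Finset.sum_range_succ]
    have e : ⟪dir b₁ b₂ (n + 1), P b₁ b₂ p₀ (n + 1)⟫_ℝ
        = ⟪dir b₁ b₂ (n + 1), P b₁ b₂ p₀ n⟫_ℝ + len n := by
      rw [P_succ, inner_add_right, inner_smul_right, inner_dir_self h1 h2 h12]; ring
    have e2 : ⟪jmp b₁ b₂ n, P b₁ b₂ p₀ n⟫_ℝ
        = ⟪dir b₁ b₂ n, P b₁ b₂ p₀ n⟫_ℝ - ⟪dir b₁ b₂ (n + 1), P b₁ b₂ p₀ n⟫_ℝ := by
      unfold jmp; rw [inner_sub_left]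
    rw [e, e2]
    linarith

variable [MeasurableSpace E] [BorelSpace E]

/-- Lower bound for the length of a connected set touching the right side of the corners. -/
lemma tail_lower_n (h1 : ‖b₁‖ = 1) (h2 : ‖b₂‖ = 1) (h12 : ⟪b₁, b₂⟫_ℝ = 0) {K : Set E}
    (hK : IsPreconnected K) {q : E} (hq : q ∈ K)
    (hz : ∀ k, ∃ z ∈ K, 0 ≤ ⟪jmp b₁ b₂ k, z - P b₁ b₂ p₀ k⟫_ℝ)
    (hy : ∀ n, ∃ y ∈ K, 0 ≤ ⟪dir b₁ b₂ n, y - P b₁ b₂ p₀ n⟫_ℝ) (n : ℕ) :
    ENNReal.ofReal (⟪dir b₁ b₂ 0, p₀ - q⟫_ℝ + ∑ k ∈ Finset.range n, len k) ≤ μH[1] K := by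
  classical
  choose z hzK hz using hz
  obtain ⟨y, hyK, hy⟩ := hy n
  -- vectors and points
  set h : Option (Fin n) → E := fun i => match i with
    | none => - dir b₁ b₂ 0
    | some k => jmp b₁ b₂ k with hh
  set p : Option (Fin n) → E := fun i => match i with
    | none => q
    | some k => z k with hp
  have hnorm : ∀ I : Finset (Option (Fin n)), ‖∑ i ∈ I, h i‖ ≤ 1 := by
    intro I
    have hsum : ∑ i ∈ I, h i = (if none ∈ I then - dir b₁ b₂ 0 else 0) +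
        ∑ k ∈ (Finset.range n).filter (fun k => ∃ hk : k < n, some (⟨k, hk⟩ : Fin n) ∈ I),
          jmp b₁ b₂ k := by
      have e1 : ∑ i ∈ I, h i = ∑ i, if i ∈ I then h i else 0 := by
        rw [Finset.sum_ite_mem, Finset.univ_inter]
      rw [e1, Fintype.sum_option]
      congr 1
      rw [Finset.sum_filter, ← Fin.sum_univ_eq_sum_range
        (fun k => if ∃ hk : k < n, some (⟨k, hk⟩ : Fin n) ∈ I then jmp b₁ b₂ k else 0)]
      refine Finset.sum_congr rfl fun k _ => ?_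
      have : (∃ hk : (k : ℕ) < n, some (⟨k, hk⟩ : Fin n) ∈ I) ↔ some k ∈ I := by
        constructor
        · rintro ⟨_, h⟩; exact h
        · intro h; exact ⟨k.2, h⟩
      simp only [this, hh]
    rw [hsum]
    split_ifs
    · exact norm_sum_jmp' h1 h2 h12 _
    · rw [zero_add]; exact norm_sum_jmp h1 h2 h12 _
  have hpK : ∀ i, p i ∈ K := by
    intro i
    cases i with
    | none => exact hq
    | some k => exact hzK k
  have key := lin_calib hK h hnorm p hpK y hyK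
  refine le_trans (ENNReal.ofReal_le_ofReal ?_) key
  rw [Fintype.sum_option]
  simp only [hh, hp]
  rw [Fin.sum_univ_eq_sum_range (fun k => ⟪jmp b₁ b₂ k, z k - y⟫_ℝ) n]
  have e3 : ∑ k ∈ Finset.range n, ⟪jmp b₁ b₂ k, z k - y⟫_ℝ
      = ∑ k ∈ Finset.range n, ⟪jmp b₁ b₂ k, z k - P b₁ b₂ p₀ k⟫_ℝ
        + ∑ k ∈ Finset.range n, ⟪jmp b₁ b₂ k, P b₁ b₂ p₀ k⟫_ℝ
        - ⟪dir b₁ b₂ 0 - dir b₁ b₂ n, y⟫_ℝ := by
    rw [← sum_jmp, sum_inner, ← Finset.sum_add_distrib, ← Finset.sum_sub_distrib]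
    refine Finset.sum_congr rfl fun k _ => ?_
    rw [inner_sub_right, inner_sub_right]; ring
  have e4 : 0 ≤ ∑ k ∈ Finset.range n, ⟪jmp b₁ b₂ k, z k - P b₁ b₂ p₀ k⟫_ℝ :=
    Finset.sum_nonneg fun k _ => hz k
  have e5 := path_identity (p₀ := p₀) h1 h2 h12 n
  rw [e3]
  rw [inner_sub_right] at hy
  rw [inner_neg_left, inner_sub_left, inner_sub_right, inner_sub_right]
  linarith

lemma tail_lower (h1 : ‖b₁‖ = 1) (h2 : ‖b₂‖ = 1) (h12 : ⟪b₁, b₂⟫_ℝ = 0) {K : Set E}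
    (hK : IsPreconnected K) {q : E} (hq : q ∈ K)
    (hz : ∀ k, ∃ z ∈ K, 0 ≤ ⟪jmp b₁ b₂ k, z - P b₁ b₂ p₀ k⟫_ℝ)
    (hy : ∀ n, ∃ y ∈ K, 0 ≤ ⟪dir b₁ b₂ n, y - P b₁ b₂ p₀ n⟫_ℝ) :
    ENNReal.ofReal (⟪dir b₁ b₂ 0, p₀ - q⟫_ℝ + 1 / 8) ≤ μH[1] K := by
  have ht : Tendsto (fun n : ℕ => ENNReal.ofReal (⟪dir b₁ b₂ 0, p₀ - q⟫_ℝ +
      ∑ k ∈ Finset.range n, len k)) atTop
      (𝓝 (ENNReal.ofReal (⟪dir b₁ b₂ 0, p₀ - q⟫_ℝ + 1 / 8))) := by
    refine (ENNReal.continuous_ofReal.tendsto _).comp ?_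
    refine tendsto_const_nhds.add ?_
    simp only [sum_len]
    have h3 : Tendsto (fun n : ℕ => ((1 : ℝ) / 2) ^ (n + 3)) atTop (𝓝 0) := by
      have := tendsto_pow_atTop_nhds_zero_of_lt_one (r := (1 / 2 : ℝ)) (by norm_num) (by norm_num)
      exact (tendsto_add_atTop_iff_nat 3).2 this
    simpa using tendsto_const_nhds.sub h3
  exact le_of_tendsto' ht fun n => tail_lower_n h1 h2 h12 hK hq hz hy n

end Path

end Pool.Agent.Y459.NS
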