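import Mathlib
import Pool.Agent.H270R2.St.Basic
import Pool.Agent.Y459.NS.Tail
import Pool.Agent.Y459.NS.Square2

/-!
# The configuration: the square, the tail and the two Steiner trees
-/

set_option autoImplicit false

open scoped MeasureTheory ENNReal InnerProductSpace
open MeasureTheory Set Filter Topology

namespace Pool.Agent.Y459.NS

section general

variable {E : Type*} [NormedAddCommGroup E] [NormedSpace ℝ E]

lemma compact_shrink {X : ℕ → Set E} (hX : ∀ k, IsCompact (X k)) {x : E} {c : ℕ → ℝ}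
    (hc : Tendsto c atTop (𝓝 0)) (hXc : ∀ k, X k ⊆ Metric.closedBall x (c k)) :
    IsCompact ({x} ∪ ⋃ k, X k) := by
  apply isCompact_of_finite_subcover
  intro ι U hU hcov
  have hx : x ∈ ⋃ i, U i := hcov (Or.inl rfl)
  obtain ⟨i0, hi0⟩ := mem_iUnion.1 hx
  obtain ⟨ε, hε, hball⟩ := Metric.isOpen_iff.1 (hU i0) x hi0
  obtain ⟨N, hN⟩ := (Metric.tendsto_atTop.1 hc) ε hε
  have hfin : IsCompact (⋃ k ∈ Finset.range N, X k) :=
    (Finset.range N).isCompact_biUnion (fun k _ => hX k)
  obtain ⟨t, ht⟩ := hfin.elim_finite_subcover U hU (by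
    intro y hy
    apply hcov
    right
    simp only [mem_iUnion] at hy ⊢
    obtain ⟨k, _, hk⟩ := hy
    exact ⟨k, hk⟩)
  classical
  refine ⟨insert i0 t, ?_⟩
  rintro y (hy | hy)
  · rw [mem_singleton_iff.1 hy]
    exact mem_biUnion (Finset.mem_insert_self _ _) hi0
  · obtain ⟨k, hk⟩ := mem_iUnion.1 hy
    by_cases hkN : k < N
    · have : y ∈ ⋃ i ∈ t, U i := ht (mem_biUnion (Finset.mem_coe.2 (Finset.mem_range.2 hkN)) hk)
      simp only [mem_iUnion] at this ⊢
      obtain ⟨i, hi, hi2⟩ := this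
      exact ⟨i, Finset.mem_insert_of_mem hi, hi2⟩
    · have h1 := hXc k hk
      have h2 := hN k (not_lt.1 hkN)
      rw [Real.dist_eq, sub_zero] at h2
      have h3 : y ∈ Metric.ball x ε := by
        rw [Metric.mem_ball]
        exact lt_of_le_of_lt (Metric.mem_closedBall.1 h1) (lt_of_le_of_lt (le_abs_self _) h2)
      exact mem_biUnion (Finset.mem_insert_self _ _) (hball h3)

lemma isCompact_seg (a b : E) : IsCompact (segment ℝ a b) := by
  rw [segment_eq_image']
  exact isCompact_Icc.image (by fun_prop)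

end general

lemma inner_E2 (x y : E2) : ⟪x, y⟫_ℝ = x 0 * y 0 + x 1 * y 1 := by
  rw [PiLp.inner_apply, Fin.sum_univ_two]
  simp [mul_comm]

/-- The direction of the ray. -/
noncomputable def b1 : E2 := !₂[1 / 2, Real.sqrt 3 / 2]
noncomputable def b2 : E2 := !₂[-(Real.sqrt 3 / 2), 1 / 2]

lemma b10 : b1 0 = 1 / 2 := rfl
lemma b11 : b1 1 = Real.sqrt 3 / 2 := rfl
lemma b20 : b2 0 = -(Real.sqrt 3 / 2) := rfl
lemma b21 : b2 1 = 1 / 2 := rfl

lemma norm_of_inner {x : E2} (h : ⟪x, x⟫_ℝ = 1) : ‖x‖ = 1 := by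
  rw [real_inner_self_eq_norm_sq] at h
  have h0 := norm_nonneg x
  nlinarith

lemma nb1 : ‖b1‖ = 1 := by
  apply norm_of_inner
  rw [inner_E2, b10, b11]; nlinarith [sqrt3_sq]

lemma nb2 : ‖b2‖ = 1 := by
  apply norm_of_inner
  rw [inner_E2, b20, b21]; nlinarith [sqrt3_sq]

lemma ib12 : ⟪b1, b2⟫_ℝ = 0 := by
  rw [inner_E2, b10, b11, b20, b21]; ring

lemma f1_eq (x : E2) : f1 x = ⟪b1, x - v1⟫_ℝ := by
  rw [inner_E2, b10, b11, PiLp.sub_apply, PiLp.sub_apply, v10, v11]
  unfold f1; ring

/-- The other coordinate. -/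
noncomputable def g1 (x : E2) : ℝ := -(Real.sqrt 3 / 2) * (x 0 - 1) + (x 1 - 1) / 2

lemma g1_eq (x : E2) : g1 x = ⟪b2, x - v1⟫_ℝ := by
  rw [inner_E2, b20, b21, PiLp.sub_apply, PiLp.sub_apply, v10, v11]
  unfold g1; ring

lemma x0_eq (x : E2) : x 0 = 1 + f1 x / 2 - Real.sqrt 3 / 2 * g1 x := by
  unfold f1 g1
  linear_combination (- (x 0 - 1) / 4) * sqrt3_sq

lemma x1_eq (x : E2) : x 1 = 1 + Real.sqrt 3 / 2 * f1 x + g1 x / 2 := by
  unfold f1 g1
  linear_combination (- (x 1 - 1) / 4) * sqrt3_sq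

lemma f1_cont : Continuous f1 := by unfold f1; fun_prop
lemma g1_cont : Continuous g1 := by unfold g1; fun_prop

/-- The start of the tail. -/
noncomputable def p0 : E2 := v1 + (10 : ℝ) • b1

noncomputable def PP (k : ℕ) : E2 := P b1 b2 p0 k

lemma PP_zero : PP 0 = p0 := rfl
lemma PP_succ (k : ℕ) : PP (k + 1) = PP k + len k • dir b1 b2 (k + 1) := rfl

lemma dist_PP (k : ℕ) : dist (PP k) (PP (k + 1)) = len k := by
  rw [PP_succ, dist_self_add_right, norm_smul, norm_dir nb1 nb2 ib12, mul_one, Real.norm_eq_abs,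
    abs_of_pos (len_pos k)]

lemma dist_PP_le (k : ℕ) : dist (PP k) (PP (k + 1)) ≤ 1 / 8 / 2 / 2 ^ k := by
  rw [dist_PP]; unfold len
  rw [one_div_pow, pow_add]
  apply le_of_eq; field_simp; norm_num

lemma PP_cauchy : CauchySeq PP := cauchySeq_of_le_geometric_two dist_PP_le

noncomputable def Pinf : E2 := (cauchySeq_tendsto_of_complete PP_cauchy).choose

lemma tendsto_PP : Tendsto PP atTop (𝓝 Pinf) :=
  (cauchySeq_tendsto_of_complete PP_cauchy).choose_spec

lemma dist_PP_inf (k : ℕ) : dist (PP k) Pinf ≤ 1 / 8 / 2 ^ k :=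
  dist_le_of_le_geometric_two_of_tendsto dist_PP_le tendsto_PP k

lemma f1_succ (k : ℕ) : f1 (PP (k + 1)) = f1 (PP k) + len k * Real.cos (th (k + 1)) := by
  have h : ⟪b1, dir b1 b2 (k + 1)⟫_ℝ = Real.cos (th (k + 1)) := by
    have := inner_comb nb1 nb2 ib12 1 0 (Real.cos (th (k + 1))) (Real.sin (th (k + 1)))
    simpa [dir] using this
  rw [f1_eq, f1_eq, PP_succ, add_sub_right_comm, inner_add_right, inner_smul_right, h]

lemma g1_succ (k : ℕ) : g1 (PP (k + 1)) = g1 (PP k) + len k * Real.sin (th (k + 1)) := by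
  have h : ⟪b2, dir b1 b2 (k + 1)⟫_ℝ = Real.sin (th (k + 1)) := by
    have := inner_comb nb1 nb2 ib12 0 1 (Real.cos (th (k + 1))) (Real.sin (th (k + 1)))
    simpa [dir] using this
  rw [g1_eq, g1_eq, PP_succ, add_sub_right_comm, inner_add_right, inner_smul_right, h]

lemma f1_p0 : f1 p0 = 10 := by
  rw [f1_eq]; unfold p0
  rw [add_sub_cancel_left, inner_smul_right, real_inner_self_eq_norm_sq, nb1]; norm_num

lemma g1_p0 : g1 p0 = 0 := by
  rw [g1_eq]; unfold p0
  rw [add_sub_cancel_left, inner_smul_right, real_inner_comm, ib12]; norm_num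

lemma cos_th_pos (k : ℕ) : 0 < Real.cos (th k) := by linarith [cos_th_ge k]
lemma sin_th_nonneg (k : ℕ) : 0 ≤ Real.sin (th k) :=
  Real.sin_nonneg_of_nonneg_of_le_pi (th_nonneg k) (by linarith [th_lt_one k, Real.pi_gt_three])

lemma f1_strictMono : StrictMono (fun k => f1 (PP k)) := by
  apply strictMono_nat_of_lt_succ
  intro k
  show f1 (PP k) < f1 (PP (k + 1))
  rw [f1_succ]
  have := mul_pos (len_pos k) (cos_th_pos (k + 1))
  linarith

lemma PP_box (k : ℕ) : (10 ≤ f1 (PP k) ∧ f1 (PP k) ≤ 10 + ∑ j ∈ Finset.range k, len j) ∧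
    (0 ≤ g1 (PP k) ∧ g1 (PP k) ≤ ∑ j ∈ Finset.range k, len j) := by
  induction k with
  | zero => rw [PP_zero, f1_p0, g1_p0]; simp
  | succ k ih =>
    rw [f1_succ, g1_succ, Finset.sum_range_succ]
    have hl := len_pos k
    have c0 := cos_th_pos (k + 1)
    have c1 := Real.cos_le_one (th (k + 1))
    have s0 := sin_th_nonneg (k + 1)
    have s1 := Real.sin_le_one (th (k + 1))
    have m1 := mul_pos hl c0
    have m2 := mul_nonneg hl.le s0
    have m3 : len k * Real.cos (th (k + 1)) ≤ len k * 1 := mul_le_mul_of_nonneg_left c1 hl.le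
    have m4 : len k * Real.sin (th (k + 1)) ≤ len k * 1 := mul_le_mul_of_nonneg_left s1 hl.le
    refine ⟨⟨by linarith [ih.1.1], by linarith [ih.1.2]⟩, by linarith [ih.2.1],
      by linarith [ih.2.2]⟩

/-- A box containing the tail. -/
def bx : Set E2 := {x | (10 ≤ f1 x ∧ f1 x ≤ 10 + 1 / 8) ∧ (0 ≤ g1 x ∧ g1 x ≤ 1 / 8)}

lemma PP_mem_bx (k : ℕ) : PP k ∈ bx := by
  have h := PP_box k
  have hs := sum_len k
  have hp : (0 : ℝ) < (1 / 2) ^ (k + 3) := by positivity
  exact ⟨⟨h.1.1, by linarith [h.1.2]⟩, h.2.1, by linarith [h.2.2]⟩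

lemma bx_closed : IsClosed bx := by
  unfold bx
  have h1 : IsClosed {x | 10 ≤ f1 x} := isClosed_le continuous_const f1_cont
  have h2 : IsClosed {x | f1 x ≤ 10 + 1 / 8} := isClosed_le f1_cont continuous_const
  have h3 : IsClosed {x | 0 ≤ g1 x} := isClosed_le continuous_const g1_cont
  have h4 : IsClosed {x | g1 x ≤ 1 / 8} := isClosed_le g1_cont continuous_const
  exact (h1.inter h2).inter (h3.inter h4)

lemma f1_comb (x y : E2) {a b : ℝ} (hab : a + b = 1) : f1 (a • x + b • y) = a * f1 x + b * f1 y := by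
  unfold f1
  simp only [PiLp.add_apply, PiLp.smul_apply, smul_eq_mul]
  obtain rfl : a = 1 - b := by linarith
  ring

lemma g1_comb (x y : E2) {a b : ℝ} (hab : a + b = 1) : g1 (a • x + b • y) = a * g1 x + b * g1 y := by
  unfold g1
  simp only [PiLp.add_apply, PiLp.smul_apply, smul_eq_mul]
  obtain rfl : a = 1 - b := by linarith
  ring

lemma bx_convex : Convex ℝ bx := by
  intro x hx y hy a b ha hb hab
  obtain ⟨⟨h1, h2⟩, h3, h4⟩ := hx
  obtain ⟨⟨k1, k2⟩, k3, k4⟩ := hy
  show (10 ≤ f1 (a • x + b • y) ∧ f1 (a • x + b • y) ≤ 10 + 1 / 8) ∧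
    (0 ≤ g1 (a • x + b • y) ∧ g1 (a • x + b • y) ≤ 1 / 8)
  rw [f1_comb x y hab, g1_comb x y hab]
  refine ⟨⟨?_, ?_⟩, ?_, ?_⟩
  · have := mul_le_mul_of_nonneg_left h1 ha
    have := mul_le_mul_of_nonneg_left k1 hb
    have e : a * 10 + b * 10 = 10 := by rw [← add_mul, hab]; ring
    linarith
  · have := mul_le_mul_of_nonneg_left h2 ha
    have := mul_le_mul_of_nonneg_left k2 hb
    have e : a * (10 + 1 / 8) + b * (10 + 1 / 8) = 10 + 1 / 8 := by rw [← add_mul, hab]; ring
    linarith
  · have := mul_nonneg ha h3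
    have := mul_nonneg hb k3
    linarith
  · have := mul_le_mul_of_nonneg_left h4 ha
    have := mul_le_mul_of_nonneg_left k4 hb
    have e : a * (1 / 8) + b * (1 / 8) = 1 / 8 := by rw [← add_mul, hab]; ring
    linarith

lemma Pinf_mem_bx : Pinf ∈ bx := bx_closed.mem_of_tendsto tendsto_PP (Eventually.of_forall PP_mem_bx)

/-- The tail. -/
noncomputable def tailS : Set E2 := {Pinf} ∪ ⋃ k, segment ℝ (PP k) (PP (k + 1))

lemma tail_sub_bx : tailS ⊆ bx := by
  rintro x (hx | hx)
  · rw [mem_singleton_iff.1 hx]; exact Pinf_mem_bx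
  · obtain ⟨k, hk⟩ := mem_iUnion.1 hx
    exact bx_convex.segment_subset (PP_mem_bx k) (PP_mem_bx (k + 1)) hk

lemma tail_compact : IsCompact tailS := by
  apply compact_shrink (c := fun k => 1 / 8 / 2 ^ k) (fun k => isCompact_seg _ _)
  · have h : Tendsto (fun k : ℕ => ((1 : ℝ) / 2) ^ k) atTop (𝓝 0) :=
      tendsto_pow_atTop_nhds_zero_of_lt_one (by norm_num) (by norm_num)
    have h2 := h.const_mul (1 / 8)
    rw [mul_zero] at h2
    refine h2.congr fun k => ?_
    rw [one_div_pow]; ring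
  · intro k
    have h1 : PP k ∈ Metric.closedBall Pinf (1 / 8 / 2 ^ k) := by
      rw [Metric.mem_closedBall]; exact dist_PP_inf k
    have h2 : PP (k + 1) ∈ Metric.closedBall Pinf (1 / 8 / 2 ^ k) := by
      rw [Metric.mem_closedBall]
      refine (dist_PP_inf (k + 1)).trans ?_
      rw [pow_succ]
      have : (0 : ℝ) < 2 ^ k := by positivity
      apply div_le_div_of_nonneg_left (by norm_num) this
      nlinarith
    exact (convex_closedBall _ _).segment_subset h1 h2

lemma PP_mem_tail (k : ℕ) : PP k ∈ tailS := Or.inr (mem_iUnion.2 ⟨k, left_mem_segment ℝ _ _⟩)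
lemma Pinf_mem_tail : Pinf ∈ tailS := Or.inl rfl

lemma tail_conn : IsPreconnected tailS := by
  have hU : IsPreconnected (⋃ k, segment ℝ (PP k) (PP (k + 1))) := by
    apply IsPreconnected.iUnion_of_chain
    · intro k
      exact (convex_segment _ _).isPreconnected
    · intro k
      exact ⟨PP (k + 1), right_mem_segment ℝ _ _, left_mem_segment ℝ _ _⟩
  have hcl : Pinf ∈ closure (⋃ k, segment ℝ (PP k) (PP (k + 1))) := by
    apply mem_closure_of_tendsto tendsto_PP
    exact Eventually.of_forall fun k => mem_iUnion.2 ⟨k, left_mem_segment ℝ _ _⟩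
  apply hU.subset_closure
  · intro x hx; exact Or.inr hx
  · rintro x (hx | hx)
    · rw [mem_singleton_iff.1 hx]; exact hcl
    · exact subset_closure hx

lemma tail_meas : μH[1] tailS ≤ ENNReal.ofReal (1 / 8) := by
  have h1 : μH[1] tailS ≤ μH[1] ({Pinf} : Set E2) + ∑' k, μH[1] (segment ℝ (PP k) (PP (k + 1))) :=
    (measure_union_le _ _).trans (add_le_add le_rfl (measure_iUnion_le _))
  rw [Pool.Agent.H270R2.St.noAtom, zero_add] at h1
  refine h1.trans ?_
  have h2 : ∀ k, μH[1] (segment ℝ (PP k) (PP (k + 1))) = ENNReal.ofReal (len k) := by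
    intro k
    rw [hausdorffMeasure_segment, edist_dist, dist_PP]
  simp only [h2]
  have hlen : ∀ k, len k = 1 / 16 * (1 / 2) ^ k := by
    intro k; unfold len; rw [pow_add]; ring
  have hs : Summable len := by
    have : Summable (fun k : ℕ => (1 / 16 : ℝ) * (1 / 2) ^ k) :=
      (summable_geometric_of_lt_one (by norm_num) (by norm_num)).mul_left _
    exact this.congr fun k => (hlen k).symm
  rw [← ENNReal.ofReal_tsum_of_nonneg (fun k => (len_pos k).le) hs]
  apply ENNReal.ofReal_le_ofReal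
  rw [tsum_congr hlen, tsum_mul_left, tsum_geometric_two]
  norm_num

/-- `1 - 1/√3`. -/
noncomputable def cc : ℝ := 1 - Real.sqrt 3 / 3

lemma cc_lt : cc < 0.4227 := by unfold cc; linarith [lt_sqrt3]
lemma lt_cc : 0.4226 < cc := by unfold cc; linarith [sqrt3_lt]

noncomputable def sL : E2 := !₂[-cc, 0]
noncomputable def sR : E2 := !₂[cc, 0]
noncomputable def sT : E2 := !₂[0, cc]
noncomputable def sB : E2 := !₂[0, -cc]

lemma sL0 : sL 0 = -cc := rfl
lemma sL1 : sL 1 = 0 := rfl
lemma sR0 : sR 0 = cc := rfl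
lemma sR1 : sR 1 = 0 := rfl
lemma sT0 : sT 0 = 0 := rfl
lemma sT1 : sT 1 = cc := rfl
lemma sB0 : sB 0 = 0 := rfl
lemma sB1 : sB 1 = -cc := rfl

noncomputable def baseS : Set E2 :=
  segment ℝ sL v2 ∪ segment ℝ sL v3 ∪ segment ℝ sL sR ∪ segment ℝ sR v4 ∪ segment ℝ sR p0

noncomputable def baseT : Set E2 :=
  segment ℝ sT v2 ∪ segment ℝ sT v1 ∪ segment ℝ sT sB ∪ segment ℝ sB v3 ∪ segment ℝ sB v4 ∪
    segment ℝ v1 p0

noncomputable def SS : Set E2 := baseS ∪ tailS
noncomputable def TT : Set E2 := baseT ∪ tailS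
noncomputable def AA : Set E2 := {v1, v2, v3, v4} ∪ insert Pinf (range PP)

/-- The common length. -/
noncomputable def LT : ℝ := 12 + 2 * Real.sqrt 3 + 1 / 8

lemma SS_compact : IsCompact SS :=
  (((((isCompact_seg _ _).union (isCompact_seg _ _)).union (isCompact_seg _ _)).union
    (isCompact_seg _ _)).union (isCompact_seg _ _)).union tail_compact

lemma TT_compact : IsCompact TT :=
  ((((((isCompact_seg _ _).union (isCompact_seg _ _)).union (isCompact_seg _ _)).union
    (isCompact_seg _ _)).union (isCompact_seg _ _)).union (isCompact_seg _ _)).union tail_compact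

lemma seg_pre (a b : E2) : IsPreconnected (segment ℝ a b) := (convex_segment _ _).isPreconnected

lemma SS_conn : IsConnected SS := by
  refine ⟨⟨Pinf, Or.inr Pinf_mem_tail⟩, ?_⟩
  have c1 : IsPreconnected (segment ℝ sL v2 ∪ segment ℝ sL v3) :=
    IsPreconnected.union sL (left_mem_segment ℝ _ _) (left_mem_segment ℝ _ _) (seg_pre _ _)
      (seg_pre _ _)
  have c2 : IsPreconnected (segment ℝ sL v2 ∪ segment ℝ sL v3 ∪ segment ℝ sL sR) :=
    IsPreconnected.union sL (Or.inl (left_mem_segment ℝ _ _)) (left_mem_segment ℝ _ _) c1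
      (seg_pre _ _)
  have c3 := IsPreconnected.union sR (Or.inr (right_mem_segment ℝ _ _)) (left_mem_segment ℝ _ _) c2
      (seg_pre sR v4)
  have c4 := IsPreconnected.union sR (Or.inr (left_mem_segment ℝ _ _)) (left_mem_segment ℝ _ _) c3
      (seg_pre sR p0)
  exact IsPreconnected.union p0 (Or.inr (right_mem_segment ℝ _ _)) (PP_mem_tail 0) c4 tail_conn

lemma TT_conn : IsConnected TT := by
  refine ⟨⟨Pinf, Or.inr Pinf_mem_tail⟩, ?_⟩
  have c1 : IsPreconnected (segment ℝ sT v2 ∪ segment ℝ sT v1) :=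
    IsPreconnected.union sT (left_mem_segment ℝ _ _) (left_mem_segment ℝ _ _) (seg_pre _ _)
      (seg_pre _ _)
  have c2 : IsPreconnected (segment ℝ sT v2 ∪ segment ℝ sT v1 ∪ segment ℝ sT sB) :=
    IsPreconnected.union sT (Or.inl (left_mem_segment ℝ _ _)) (left_mem_segment ℝ _ _) c1
      (seg_pre _ _)
  have c3 := IsPreconnected.union sB (Or.inr (right_mem_segment ℝ _ _)) (left_mem_segment ℝ _ _) c2
      (seg_pre sB v3)
  have c4 := IsPreconnected.union sB (Or.inr (left_mem_segment ℝ _ _)) (left_mem_segment ℝ _ _) c3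
      (seg_pre sB v4)
  have c5 := IsPreconnected.union v1
      (Or.inl (Or.inl (Or.inl (Or.inr (right_mem_segment ℝ _ _))))) (left_mem_segment ℝ _ _) c4
      (seg_pre v1 p0)
  exact IsPreconnected.union p0 (Or.inr (right_mem_segment ℝ _ _)) (PP_mem_tail 0) c5 tail_conn

lemma AA_sub_SS : AA ⊆ SS := by
  rintro x (hx | hx)
  · left
    rcases hx with rfl | rfl | rfl | hx
    · -- v1 lies on the segment from sR to p0
      right
      rw [segment_eq_image']
      have h3 := sqrt3_sq
      refine ⟨(2 * Real.sqrt 3 / 3) / (2 * Real.sqrt 3 / 3 + 10), ⟨by positivity, ?_⟩, ?_⟩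
      · rw [div_le_one (by positivity)]; linarith
      · have hd : (2 * Real.sqrt 3 / 3 + 10 : ℝ) ≠ 0 := by positivity
        have e : p0 - sR = (2 * Real.sqrt 3 / 3 + 10) • b1 := by
          ext i
          fin_cases i
          · show (p0 - sR) 0 = ((2 * Real.sqrt 3 / 3 + 10) • b1) 0
            unfold p0
            rw [PiLp.sub_apply, PiLp.add_apply, PiLp.smul_apply, PiLp.smul_apply, v10, b10, sR0]
            unfold cc
            simp only [smul_eq_mul]; ring
          · show (p0 - sR) 1 = ((2 * Real.sqrt 3 / 3 + 10) • b1) 1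
            unfold p0
            rw [PiLp.sub_apply, PiLp.add_apply, PiLp.smul_apply, PiLp.smul_apply, v11, b11, sR1]
            simp only [smul_eq_mul]; linear_combination (-1/3) * h3
        have e2 : v1 - sR = (2 * Real.sqrt 3 / 3) • b1 := by
          ext i
          fin_cases i
          · show (v1 - sR) 0 = ((2 * Real.sqrt 3 / 3) • b1) 0
            rw [PiLp.sub_apply, PiLp.smul_apply, v10, b10, sR0]
            unfold cc
            simp only [smul_eq_mul]; ring
          · show (v1 - sR) 1 = ((2 * Real.sqrt 3 / 3) • b1) 1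
            rw [PiLp.sub_apply, PiLp.smul_apply, v11, b11, sR1]
            simp only [smul_eq_mul]; linear_combination (-1/3) * h3
        show sR + ((2 * Real.sqrt 3 / 3) / (2 * Real.sqrt 3 / 3 + 10)) • (p0 - sR) = v1
        rw [e, smul_smul, div_mul_cancel₀ _ hd, ← e2]; abel
    · exact Or.inl (Or.inl (Or.inl (Or.inl (right_mem_segment ℝ _ _))))
    · exact Or.inl (Or.inl (Or.inl (Or.inr (right_mem_segment ℝ _ _))))
    · rw [mem_singleton_iff.1 hx]
      exact Or.inl (Or.inr (right_mem_segment ℝ _ _))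
  · right
    rcases hx with rfl | ⟨k, rfl⟩
    · exact Pinf_mem_tail
    · exact PP_mem_tail k

lemma AA_sub_TT : AA ⊆ TT := by
  rintro x (hx | hx)
  · left
    rcases hx with rfl | rfl | rfl | hx
    · exact Or.inr (left_mem_segment ℝ _ _)
    · exact Or.inl (Or.inl (Or.inl (Or.inl (Or.inl (right_mem_segment ℝ _ _)))))
    · exact Or.inl (Or.inl (Or.inr (right_mem_segment ℝ _ _)))
    · rw [mem_singleton_iff.1 hx]
      exact Or.inl (Or.inr (right_mem_segment ℝ _ _))
  · right
    rcases hx with rfl | ⟨k, rfl⟩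
    · exact Pinf_mem_tail
    · exact PP_mem_tail k

lemma AA_compact : IsCompact AA := by
  apply IsCompact.union
  · exact (Set.toFinite _).isCompact
  · exact tendsto_PP.isCompact_insert_range

lemma AA_countable : AA.Countable :=
  (Set.toFinite _).countable.union ((countable_range PP).insert _)

lemma PP_injective : Function.Injective PP := by
  intro j k h
  exact f1_strictMono.injective (congrArg f1 h)

lemma AA_infinite : AA.Infinite := by
  apply (Set.infinite_range_of_injective PP_injective).mono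
  intro x hx
  exact Or.inr (Or.inr hx)

lemma dist_of_sq {x y : E2} {d : ℝ} (hd : 0 ≤ d)
    (h : (x 0 - y 0) ^ 2 + (x 1 - y 1) ^ 2 = d ^ 2) : dist x y = d := by
  have h1 := dist_sq x y
  rw [h] at h1
  exact (pow_left_inj₀ dist_nonneg hd two_ne_zero).1 h1

lemma seg_meas {x y : E2} {d : ℝ} (hd : 0 ≤ d)
    (h : (x 0 - y 0) ^ 2 + (x 1 - y 1) ^ 2 = d ^ 2) :
    μH[1] (segment ℝ x y) = ENNReal.ofReal d := by
  rw [hausdorffMeasure_segment, edist_dist, dist_of_sq hd h]

lemma p00 : p0 0 = 6 := by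
  unfold p0; rw [PiLp.add_apply, PiLp.smul_apply, v10, b10, smul_eq_mul]; norm_num
lemma p01 : p0 1 = 1 + 5 * Real.sqrt 3 := by
  unfold p0; rw [PiLp.add_apply, PiLp.smul_apply, v11, b11, smul_eq_mul]; ring

lemma SS_meas : μH[1] SS ≤ ENNReal.ofReal LT := by
  have h3 := sqrt3_sq
  have h0 := Real.sqrt_nonneg 3
  have hc : (0:ℝ) ≤ cc := by linarith [lt_cc]
  have e1 : μH[1] (segment ℝ sL v2) = ENNReal.ofReal (2 * Real.sqrt 3 / 3) := by
    apply seg_meas (by positivity)
    rw [sL0, sL1, v20, v21]; unfold cc; nlinarith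
  have e2 : μH[1] (segment ℝ sL v3) = ENNReal.ofReal (2 * Real.sqrt 3 / 3) := by
    apply seg_meas (by positivity)
    rw [sL0, sL1, v30, v31]; unfold cc; nlinarith
  have e3 : μH[1] (segment ℝ sL sR) = ENNReal.ofReal (2 * cc) := by
    apply seg_meas (by positivity)
    rw [sL0, sL1, sR0, sR1]; ring
  have e4 : μH[1] (segment ℝ sR v4) = ENNReal.ofReal (2 * Real.sqrt 3 / 3) := by
    apply seg_meas (by positivity)
    rw [sR0, sR1, v40, v41]; unfold cc; nlinarith
  have e5 : μH[1] (segment ℝ sR p0) = ENNReal.ofReal (2 * Real.sqrt 3 / 3 + 10) := by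
    apply seg_meas (by positivity)
    rw [sR0, sR1, p00, p01]; unfold cc; nlinarith
  calc μH[1] SS ≤ (((((μH[1] (segment ℝ sL v2) + μH[1] (segment ℝ sL v3)) +
        μH[1] (segment ℝ sL sR)) + μH[1] (segment ℝ sR v4)) + μH[1] (segment ℝ sR p0))
        + μH[1] tailS) := by
        unfold SS baseS
        refine (measure_union_le _ _).trans (add_le_add ?_ le_rfl)
        refine (measure_union_le _ _).trans (add_le_add ?_ le_rfl)
        refine (measure_union_le _ _).trans (add_le_add ?_ le_rfl)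
        refine (measure_union_le _ _).trans (add_le_add ?_ le_rfl)
        exact measure_union_le _ _
    _ ≤ (((((ENNReal.ofReal (2 * Real.sqrt 3 / 3) + ENNReal.ofReal (2 * Real.sqrt 3 / 3)) +
        ENNReal.ofReal (2 * cc)) + ENNReal.ofReal (2 * Real.sqrt 3 / 3)) +
        ENNReal.ofReal (2 * Real.sqrt 3 / 3 + 10)) + ENNReal.ofReal (1 / 8)) := by
        rw [e1, e2, e3, e4, e5]; gcongr; exact tail_meas
    _ = ENNReal.ofReal LT := by
        rw [← ENNReal.ofReal_add (by positivity) (by positivity),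
          ← ENNReal.ofReal_add (by positivity) (by positivity),
          ← ENNReal.ofReal_add (by positivity) (by positivity),
          ← ENNReal.ofReal_add (by positivity) (by positivity),
          ← ENNReal.ofReal_add (by positivity) (by positivity)]
        congr 1
        unfold LT cc; ring

lemma TT_meas : μH[1] TT ≤ ENNReal.ofReal LT := by
  have h3 := sqrt3_sq
  have h0 := Real.sqrt_nonneg 3
  have hc : (0:ℝ) ≤ cc := by linarith [lt_cc]
  have e1 : μH[1] (segment ℝ sT v2) = ENNReal.ofReal (2 * Real.sqrt 3 / 3) := by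
    apply seg_meas (by positivity)
    rw [sT0, sT1, v20, v21]; unfold cc; nlinarith
  have e2 : μH[1] (segment ℝ sT v1) = ENNReal.ofReal (2 * Real.sqrt 3 / 3) := by
    apply seg_meas (by positivity)
    rw [sT0, sT1, v10, v11]; unfold cc; nlinarith
  have e3 : μH[1] (segment ℝ sT sB) = ENNReal.ofReal (2 * cc) := by
    apply seg_meas (by positivity)
    rw [sT0, sT1, sB0, sB1]; ring
  have e4 : μH[1] (segment ℝ sB v3) = ENNReal.ofReal (2 * Real.sqrt 3 / 3) := by
    apply seg_meas (by positivity)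
    rw [sB0, sB1, v30, v31]; unfold cc; nlinarith
  have e5 : μH[1] (segment ℝ sB v4) = ENNReal.ofReal (2 * Real.sqrt 3 / 3) := by
    apply seg_meas (by positivity)
    rw [sB0, sB1, v40, v41]; unfold cc; nlinarith
  have e6 : μH[1] (segment ℝ v1 p0) = ENNReal.ofReal 10 := by
    apply seg_meas (by positivity)
    rw [v10, v11, p00, p01]; nlinarith
  calc μH[1] TT ≤ ((((((μH[1] (segment ℝ sT v2) + μH[1] (segment ℝ sT v1)) +
        μH[1] (segment ℝ sT sB)) + μH[1] (segment ℝ sB v3)) + μH[1] (segment ℝ sB v4))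
        + μH[1] (segment ℝ v1 p0)) + μH[1] tailS) := by
        unfold TT baseT
        refine (measure_union_le _ _).trans (add_le_add ?_ le_rfl)
        refine (measure_union_le _ _).trans (add_le_add ?_ le_rfl)
        refine (measure_union_le _ _).trans (add_le_add ?_ le_rfl)
        refine (measure_union_le _ _).trans (add_le_add ?_ le_rfl)
        refine (measure_union_le _ _).trans (add_le_add ?_ le_rfl)
        exact measure_union_le _ _
    _ ≤ ((((((ENNReal.ofReal (2 * Real.sqrt 3 / 3) + ENNReal.ofReal (2 * Real.sqrt 3 / 3)) +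
        ENNReal.ofReal (2 * cc)) + ENNReal.ofReal (2 * Real.sqrt 3 / 3)) +
        ENNReal.ofReal (2 * Real.sqrt 3 / 3)) + ENNReal.ofReal 10) + ENNReal.ofReal (1 / 8)) := by
        rw [e1, e2, e3, e4, e5, e6]; gcongr; exact tail_meas
    _ = ENNReal.ofReal LT := by
        rw [← ENNReal.ofReal_add (by positivity) (by positivity),
          ← ENNReal.ofReal_add (by positivity) (by positivity),
          ← ENNReal.ofReal_add (by positivity) (by positivity),
          ← ENNReal.ofReal_add (by positivity) (by positivity),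
          ← ENNReal.ofReal_add (by positivity) (by positivity),
          ← ENNReal.ofReal_add (by positivity) (by positivity)]
        congr 1
        unfold LT cc; ring

end Pool.Agent.Y459.NS
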