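import Mathlib
import Pool.Agent.Y459.NS.Config

/-!
# No terminal is interior to a segment of `TT`
-/

set_option autoImplicit false

open scoped MeasureTheory ENNReal InnerProductSpace
open MeasureTheory Set Filter Topology

namespace Pool.Agent.Y459.NS

/-- `a` is locally exposed in `TT`. -/
def LocExp (a : E2) : Prop :=
  ∃ ν : E2, ∃ δ : ℝ, 0 < δ ∧ ∀ x ∈ TT, dist x a < δ → x ≠ a → ⟪ν, x⟫_ℝ < ⟪ν, a⟫_ℝ

lemma LocExp.of_global {a ν : E2} (h : ∀ x ∈ TT, x ≠ a → ⟪ν, x⟫_ℝ < ⟪ν, a⟫_ℝ) : LocExp a :=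
  ⟨ν, 1, one_pos, fun x hx _ hne => h x hx hne⟩

lemma not_open {a : E2} (h : LocExp a) :
    ¬ ∃ x y : E2, x ≠ y ∧ segment ℝ x y ⊆ TT ∧ a ∈ openSegment ℝ x y := by
  rintro ⟨x, y, hxy, hsub, haxy⟩
  obtain ⟨ν, δ, hδ, hν⟩ := h
  obtain ⟨s, t, hs, ht, hst, hsum⟩ := haxy
  have haseg : a ∈ segment ℝ x y := ⟨s, t, hs.le, ht.le, hst, hsum⟩
  have hxa : x ≠ a := by
    rintro rfl
    apply hxy
    have h1 : t • (y - x) = 0 := by
      have : x = s • x + t • y := hsum.symm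
      have h2 : x = s • x + t • x := by rw [← add_smul, hst, one_smul]
      have h3 : s • x + t • y = s • x + t • x := by rw [← this, ← h2]
      rw [smul_sub, sub_eq_zero]
      exact add_left_cancel h3
    rcases smul_eq_zero.1 h1 with h2 | h2
    · exact absurd h2 ht.ne'
    · exact (sub_eq_zero.1 h2).symm
  have hya : y ≠ a := by
    rintro rfl
    apply hxy
    have h1 : s • (x - y) = 0 := by
      have : y = s • x + t • y := hsum.symm
      have h2 : y = s • y + t • y := by rw [← add_smul, hst, one_smul]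
      have h3 : s • x + t • y = s • y + t • y := by rw [← this, ← h2]
      rw [smul_sub, sub_eq_zero]
      exact add_right_cancel h3
    rcases smul_eq_zero.1 h1 with h2 | h2
    · exact absurd h2 hs.ne'
    · exact sub_eq_zero.1 h2
  set D : ℝ := 1 + dist x a + dist y a with hD
  have hD0 : 0 < D := by positivity
  set ε : ℝ := min 1 (δ / (2 * D)) with hε
  have hε0 : 0 < ε := lt_min one_pos (by positivity)
  have hε1 : ε ≤ 1 := min_le_left _ _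
  have hεD : ε * D < δ := by
    have h1 : ε * D ≤ δ / (2 * D) * D := mul_le_mul_of_nonneg_right (min_le_right _ _) hD0.le
    have h2 : δ / (2 * D) * D = δ / 2 := by field_simp
    linarith
  have key : ∀ z : E2, z ∈ segment ℝ x y → z ≠ a → dist z a ≤ D → ⟪ν, z - a⟫_ℝ < 0 := by
    intro z hz hza hzD
    have hmem : a + ε • (z - a) ∈ segment ℝ x y :=
      (convex_segment x y).add_smul_sub_mem haseg hz ⟨hε0.le, hε1⟩
    have hd : dist (a + ε • (z - a)) a < δ := by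
      rw [dist_self_add_left, norm_smul, Real.norm_eq_abs, abs_of_pos hε0, ← dist_eq_norm]
      exact lt_of_le_of_lt (mul_le_mul_of_nonneg_left hzD hε0.le) hεD
    have hne : a + ε • (z - a) ≠ a := by
      intro h
      rw [add_eq_left] at h
      rcases smul_eq_zero.1 h with h | h
      · exact hε0.ne' h
      · exact hza (sub_eq_zero.1 h)
    have h1 := hν _ (hsub hmem) hd hne
    rw [inner_add_right, inner_smul_right] at h1
    by_contra hcon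
    push Not at hcon
    have := mul_nonneg hε0.le hcon
    linarith
  have k1 := key x (left_mem_segment ℝ x y) hxa (by rw [hD]; linarith [dist_nonneg (x := y) (y := a)])
  have k2 := key y (right_mem_segment ℝ x y) hya (by rw [hD]; linarith [dist_nonneg (x := x) (y := a)])
  have h0 : s • (x - a) + t • (y - a) = 0 := by
    have : s • (x - a) + t • (y - a) = (s • x + t • y) - (s + t) • a := by module
    rw [this, hsum, hst, one_smul, sub_self]
  have h1 : s * ⟪ν, x - a⟫_ℝ + t * ⟪ν, y - a⟫_ℝ = 0 := by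
    rw [← inner_smul_right, ← inner_smul_right, ← inner_add_right, h0, inner_zero_right]
  have m1 := mul_neg_of_pos_of_neg hs k1
  have m2 := mul_neg_of_pos_of_neg ht k2
  linarith

lemma seg_lt {ν a b : E2} {m : ℝ} (ha : ⟪ν, a⟫_ℝ < m) (hb : ⟪ν, b⟫_ℝ < m) {x : E2}
    (hx : x ∈ segment ℝ a b) : ⟪ν, x⟫_ℝ < m := by
  obtain ⟨s, t, hs, ht, hst, rfl⟩ := hx
  rw [inner_add_right, inner_smul_right, inner_smul_right]
  rcases eq_or_lt_of_le hs with h | h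
  · obtain rfl : t = 1 := by linarith
    rw [← h]; linarith
  · have h1 := mul_lt_mul_of_pos_left ha h
    have h2 := mul_le_mul_of_nonneg_left hb.le ht
    have h3 : s * m + t * m = m := by rw [← add_mul, hst, one_mul]
    linarith

lemma seg_lt' {ν a b : E2} (ha : ⟪ν, a⟫_ℝ < ⟪ν, b⟫_ℝ) {x : E2}
    (hx : x ∈ segment ℝ a b) (hxb : x ≠ b) : ⟪ν, x⟫_ℝ < ⟪ν, b⟫_ℝ := by
  obtain ⟨s, t, hs, ht, hst, rfl⟩ := hx
  rcases eq_or_lt_of_le hs with h | h
  · exfalso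
    apply hxb
    obtain rfl : t = 1 := by linarith
    rw [← h]; simp
  · rw [inner_add_right, inner_smul_right, inner_smul_right]
    have h1 := mul_lt_mul_of_pos_left ha h
    have h3 : s * ⟪ν, b⟫_ℝ + t * ⟪ν, b⟫_ℝ = ⟪ν, b⟫_ℝ := by rw [← add_mul, hst, one_mul]
    linarith

lemma seg_coord {a b x : E2} (hx : x ∈ segment ℝ a b) :
    ∃ s t : ℝ, 0 ≤ s ∧ 0 ≤ t ∧ s + t = 1 ∧ x 0 = s * a 0 + t * b 0 ∧ x 1 = s * a 1 + t * b 1 := by
  obtain ⟨s, t, hs, ht, hst, rfl⟩ := hx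
  exact ⟨s, t, hs, ht, hst, by simp, by simp⟩

lemma tail_coord {x : E2} (hx : x ∈ tailS) :
    5 < x 0 ∧ x 0 < 7 ∧ 9 < x 1 ∧ x 1 < 10 := by
  obtain ⟨⟨h1, h2⟩, h3, h4⟩ := tail_sub_bx hx
  have hl := lt_sqrt3
  have hu := sqrt3_lt
  rw [x0_eq x, x1_eq x]
  set f := f1 x
  set g := g1 x
  refine ⟨?_, ?_, ?_, ?_⟩ <;> nlinarith

/-- A general tool for the three leaves of the square. -/
lemma TT_cases {Q : E2 → Prop} (h1 : ∀ x ∈ segment ℝ sT v2, Q x) (h2 : ∀ x ∈ segment ℝ sT v1, Q x)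
    (h3 : ∀ x ∈ segment ℝ sT sB, Q x) (h4 : ∀ x ∈ segment ℝ sB v3, Q x)
    (h5 : ∀ x ∈ segment ℝ sB v4, Q x) (h6 : ∀ x ∈ segment ℝ v1 p0, Q x)
    (h7 : ∀ x ∈ tailS, Q x) : ∀ x ∈ TT, Q x := by
  rintro x ((((((h | h) | h) | h) | h) | h) | h)
  · exact h1 x h
  · exact h2 x h
  · exact h3 x h
  · exact h4 x h
  · exact h5 x h
  · exact h6 x h
  · exact h7 x h

noncomputable def m2 : E2 := !₂[-1, 1 / 2]
noncomputable def m3 : E2 := !₂[-1, -(1 / 2)]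
noncomputable def m4 : E2 := !₂[1 / 2, -1]
noncomputable def m1 : E2 := !₂[1, -1]

lemma m2i (x : E2) : ⟪m2, x⟫_ℝ = - x 0 + x 1 / 2 := by
  rw [inner_E2]; show (-1) * x 0 + 1 / 2 * x 1 = _; ring
lemma m3i (x : E2) : ⟪m3, x⟫_ℝ = - x 0 - x 1 / 2 := by
  rw [inner_E2]; show (-1) * x 0 + -(1 / 2) * x 1 = _; ring
lemma m4i (x : E2) : ⟪m4, x⟫_ℝ = x 0 / 2 - x 1 := by
  rw [inner_E2]; show (1 / 2) * x 0 + -1 * x 1 = _; ring
lemma m1i (x : E2) : ⟪m1, x⟫_ℝ = x 0 - x 1 := by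
  rw [inner_E2]; show 1 * x 0 + -1 * x 1 = _; ring

lemma exp_v2 : LocExp v2 := by
  have hc1 := cc_lt; have hc2 := lt_cc
  have hl := lt_sqrt3; have hu := sqrt3_lt
  apply LocExp.of_global (ν := m2)
  have e2 : ⟪m2, v2⟫_ℝ = 3 / 2 := by rw [m2i, v20, v21]; norm_num
  have b1' : ⟪m2, v1⟫_ℝ < ⟪m2, v2⟫_ℝ := by rw [e2, m2i, v10, v11]; norm_num
  have b3' : ⟪m2, v3⟫_ℝ < ⟪m2, v2⟫_ℝ := by rw [e2, m2i, v30, v31]; norm_num
  have b4' : ⟪m2, v4⟫_ℝ < ⟪m2, v2⟫_ℝ := by rw [e2, m2i, v40, v41]; norm_num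
  have bT : ⟪m2, sT⟫_ℝ < ⟪m2, v2⟫_ℝ := by rw [e2, m2i, sT0, sT1]; linarith
  have bB : ⟪m2, sB⟫_ℝ < ⟪m2, v2⟫_ℝ := by rw [e2, m2i, sB0, sB1]; linarith
  have bp : ⟪m2, p0⟫_ℝ < ⟪m2, v2⟫_ℝ := by rw [e2, m2i, p00, p01]; linarith
  apply TT_cases
  · intro x hx hne; exact seg_lt' bT hx hne
  · intro x hx _; exact seg_lt bT b1' hx
  · intro x hx _; exact seg_lt bT bB hx
  · intro x hx _; exact seg_lt bB b3' hx
  · intro x hx _; exact seg_lt bB b4' hx
  · intro x hx _; exact seg_lt b1' bp hx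
  · intro x hx _
    obtain ⟨h1, h2, h3, h4⟩ := tail_coord hx
    rw [e2, m2i]; linarith

lemma exp_v3 : LocExp v3 := by
  have hc1 := cc_lt; have hc2 := lt_cc
  have hl := lt_sqrt3; have hu := sqrt3_lt
  apply LocExp.of_global (ν := m3)
  have e2 : ⟪m3, v3⟫_ℝ = 3 / 2 := by rw [m3i, v30, v31]; norm_num
  have b1' : ⟪m3, v1⟫_ℝ < ⟪m3, v3⟫_ℝ := by rw [e2, m3i, v10, v11]; norm_num
  have b3' : ⟪m3, v2⟫_ℝ < ⟪m3, v3⟫_ℝ := by rw [e2, m3i, v20, v21]; norm_num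
  have b4' : ⟪m3, v4⟫_ℝ < ⟪m3, v3⟫_ℝ := by rw [e2, m3i, v40, v41]; norm_num
  have bT : ⟪m3, sT⟫_ℝ < ⟪m3, v3⟫_ℝ := by rw [e2, m3i, sT0, sT1]; linarith
  have bB : ⟪m3, sB⟫_ℝ < ⟪m3, v3⟫_ℝ := by rw [e2, m3i, sB0, sB1]; linarith
  have bp : ⟪m3, p0⟫_ℝ < ⟪m3, v3⟫_ℝ := by rw [e2, m3i, p00, p01]; linarith
  apply TT_cases
  · intro x hx _; exact seg_lt bT b3' hx
  · intro x hx _; exact seg_lt bT b1' hx
  · intro x hx _; exact seg_lt bT bB hx
  · intro x hx hne; exact seg_lt' bB hx hne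
  · intro x hx _; exact seg_lt bB b4' hx
  · intro x hx _; exact seg_lt b1' bp hx
  · intro x hx _
    obtain ⟨h1, h2, h3, h4⟩ := tail_coord hx
    rw [e2, m3i]; linarith

lemma exp_v4 : LocExp v4 := by
  have hc1 := cc_lt; have hc2 := lt_cc
  have hl := lt_sqrt3; have hu := sqrt3_lt
  apply LocExp.of_global (ν := m4)
  have e2 : ⟪m4, v4⟫_ℝ = 3 / 2 := by rw [m4i, v40, v41]; norm_num
  have b1' : ⟪m4, v1⟫_ℝ < ⟪m4, v4⟫_ℝ := by rw [e2, m4i, v10, v11]; norm_num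
  have b3' : ⟪m4, v2⟫_ℝ < ⟪m4, v4⟫_ℝ := by rw [e2, m4i, v20, v21]; norm_num
  have b4' : ⟪m4, v3⟫_ℝ < ⟪m4, v4⟫_ℝ := by rw [e2, m4i, v30, v31]; norm_num
  have bT : ⟪m4, sT⟫_ℝ < ⟪m4, v4⟫_ℝ := by rw [e2, m4i, sT0, sT1]; linarith
  have bB : ⟪m4, sB⟫_ℝ < ⟪m4, v4⟫_ℝ := by rw [e2, m4i, sB0, sB1]; linarith
  have bp : ⟪m4, p0⟫_ℝ < ⟪m4, v4⟫_ℝ := by rw [e2, m4i, p00, p01]; linarith
  apply TT_cases
  · intro x hx _; exact seg_lt bT b3' hx
  · intro x hx _; exact seg_lt bT b1' hx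
  · intro x hx _; exact seg_lt bT bB hx
  · intro x hx _; exact seg_lt bB b4' hx
  · intro x hx hne; exact seg_lt' bB hx hne
  · intro x hx _; exact seg_lt b1' bp hx
  · intro x hx _
    obtain ⟨h1, h2, h3, h4⟩ := tail_coord hx
    rw [e2, m4i]; linarith

lemma exp_v1 : LocExp v1 := by
  have hc1 := cc_lt; have hc2 := lt_cc
  have hl := lt_sqrt3; have hu := sqrt3_lt
  refine ⟨m1, 1 / 2, by norm_num, ?_⟩
  have hco : ∀ x : E2, dist x v1 < 1 / 2 → 1 / 2 < x 0 ∧ x 0 < 3 / 2 ∧ 1 / 2 < x 1 := by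
    intro x hx
    have h1 := dist_sq x v1
    rw [v10, v11] at h1
    have h0 : 0 ≤ dist x v1 := dist_nonneg
    refine ⟨?_, ?_, ?_⟩ <;> nlinarith [sq_nonneg (x 0 - 1), sq_nonneg (x 1 - 1)]
  have bT : ⟪m1, sT⟫_ℝ < ⟪m1, v1⟫_ℝ := by rw [m1i, m1i, sT0, sT1, v10, v11]; linarith
  have bp : ⟪m1, p0⟫_ℝ < ⟪m1, v1⟫_ℝ := by rw [m1i, m1i, p00, p01, v10, v11]; linarith
  apply TT_cases
  · intro x hx hd _
    exfalso
    obtain ⟨s, t, hs, ht, hst, h0, -⟩ := seg_coord hx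
    rw [sT0, v20] at h0
    linarith [(hco x hd).1]
  · intro x hx _ hne; exact seg_lt' bT hx hne
  · intro x hx hd _
    exfalso
    obtain ⟨s, t, hs, ht, hst, h0, -⟩ := seg_coord hx
    rw [sT0, sB0] at h0
    linarith [(hco x hd).1]
  · intro x hx hd _
    exfalso
    obtain ⟨s, t, hs, ht, hst, h0, -⟩ := seg_coord hx
    rw [sB0, v30] at h0
    linarith [(hco x hd).1]
  · intro x hx hd _
    exfalso
    obtain ⟨s, t, hs, ht, hst, -, h1⟩ := seg_coord hx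
    rw [sB1, v41] at h1
    nlinarith [(hco x hd).2.2]
  · intro x hx _ hne
    rw [segment_symm] at hx
    exact seg_lt' bp hx hne
  · intro x hx hd _
    exfalso
    obtain ⟨h1, h2, h3, h4⟩ := tail_coord hx
    linarith [(hco x hd).2.1]

/-! ### The corners of the tail -/

lemma up_lt {a : ℕ → ℝ} {k : ℕ} (h : ∀ j, j < k → a j < a (j + 1)) : ∀ j, j < k → a j < a k := by
  intro j hj
  have key : ∀ m, j + 1 ≤ m → m ≤ k → a j < a m := by
    intro m hm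
    induction m, hm using Nat.le_induction with
    | base => intro _; exact h j hj
    | succ m hm ih =>
      intro hmk
      exact (ih (by omega)).trans (h m (by omega))
  exact key k hj le_rfl

lemma down_lt {a : ℕ → ℝ} {k : ℕ} (h : ∀ j, k ≤ j → a (j + 1) < a j) : ∀ j, k < j → a j < a k := by
  intro j hj
  induction j, hj using Nat.le_induction with
  | base => exact h k le_rfl
  | succ m hm ih => exact (h m (by omega)).trans ih

lemma jmp_dir_pos {k i : ℕ} (h : i ≤ k) : 0 < ⟪jmp b1 b2 k, dir b1 b2 i⟫_ℝ := by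
  unfold jmp
  rw [inner_sub_left, inner_dir nb1 nb2 ib12, inner_dir nb1 nb2 ib12, ← Real.cos_sub,
    ← Real.cos_sub, sub_pos]
  have h1 := th_strictMono.monotone h
  have h2 := th_strictMono (Nat.lt_succ_self k)
  simp only [Nat.succ_eq_add_one] at h2
  apply Real.cos_lt_cos_of_nonneg_of_le_pi (by linarith)
  · linarith [th_lt_one (k + 1), th_nonneg i, Real.pi_gt_three]
  · linarith

lemma jmp_dir_neg {k i : ℕ} (h : k + 1 ≤ i) : ⟪jmp b1 b2 k, dir b1 b2 i⟫_ℝ < 0 := by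
  unfold jmp
  rw [inner_sub_left, inner_dir nb1 nb2 ib12, inner_dir nb1 nb2 ib12, ← Real.cos_sub,
    ← Real.cos_sub, sub_neg, ← Real.cos_neg (th k - th i), ← Real.cos_neg (th (k + 1) - th i)]
  have h1 := th_strictMono.monotone h
  have h2 := th_strictMono (Nat.lt_succ_self k)
  simp only [Nat.succ_eq_add_one] at h2
  apply Real.cos_lt_cos_of_nonneg_of_le_pi (by linarith)
  · linarith [th_lt_one i, th_nonneg k, Real.pi_gt_three]
  · linarith

lemma inner_PP_succ (ν : E2) (j : ℕ) :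
    ⟪ν, PP (j + 1)⟫_ℝ = ⟪ν, PP j⟫_ℝ + len j * ⟪ν, dir b1 b2 (j + 1)⟫_ℝ := by
  rw [PP_succ, inner_add_right, inner_smul_right]

lemma PP_lt_left {j k : ℕ} (h : j < k) : ⟪jmp b1 b2 k, PP j⟫_ℝ < ⟪jmp b1 b2 k, PP k⟫_ℝ := by
  refine up_lt (a := fun j => ⟪jmp b1 b2 k, PP j⟫_ℝ) ?_ j h
  intro i hi
  show ⟪jmp b1 b2 k, PP i⟫_ℝ < ⟪jmp b1 b2 k, PP (i + 1)⟫_ℝ
  rw [inner_PP_succ]
  have := mul_pos (len_pos i) (jmp_dir_pos (k := k) (i := i + 1) hi)
  linarith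

lemma PP_lt_right {j k : ℕ} (h : k < j) : ⟪jmp b1 b2 k, PP j⟫_ℝ < ⟪jmp b1 b2 k, PP k⟫_ℝ := by
  refine down_lt (a := fun j => ⟪jmp b1 b2 k, PP j⟫_ℝ) ?_ j h
  intro i hi
  show ⟪jmp b1 b2 k, PP (i + 1)⟫_ℝ < ⟪jmp b1 b2 k, PP i⟫_ℝ
  rw [inner_PP_succ]
  have := mul_neg_of_pos_of_neg (len_pos i) (jmp_dir_neg (k := k) (i := i + 1) (by omega))
  linarith

lemma PP_lt {j k : ℕ} (h : j ≠ k) : ⟪jmp b1 b2 k, PP j⟫_ℝ < ⟪jmp b1 b2 k, PP k⟫_ℝ := by
  rcases lt_or_gt_of_ne h with h | h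
  · exact PP_lt_left h
  · exact PP_lt_right h

lemma inner_tendsto (ν : E2) : Tendsto (fun j => ⟪ν, PP j⟫_ℝ) atTop (𝓝 ⟪ν, Pinf⟫_ℝ) :=
  ((continuous_const.inner continuous_id).tendsto Pinf).comp tendsto_PP

lemma Pinf_lt (k : ℕ) : ⟪jmp b1 b2 k, Pinf⟫_ℝ < ⟪jmp b1 b2 k, PP k⟫_ℝ := by
  refine lt_of_le_of_lt ?_ (PP_lt_right (Nat.lt_succ_self k))
  refine le_of_tendsto (inner_tendsto (jmp b1 b2 k)) ?_
  filter_upwards [eventually_ge_atTop (k + 1)] with j hj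
  rcases eq_or_lt_of_le hj with h | h
  · rw [← h]
  · refine (down_lt (a := fun j => ⟪jmp b1 b2 k, PP j⟫_ℝ) (k := k + 1) ?_ j h).le
    intro i hi
    show ⟪jmp b1 b2 k, PP (i + 1)⟫_ℝ < ⟪jmp b1 b2 k, PP i⟫_ℝ
    rw [inner_PP_succ]
    have := mul_neg_of_pos_of_neg (len_pos i) (jmp_dir_neg (k := k) (i := i + 1) (by omega))
    linarith

/-- The slope of the jumps. -/
lemma slope (k : ℕ) : 9 * (Real.sin (th (k + 1)) - Real.sin (th k)) <
    80 * (Real.cos (th k) - Real.cos (th (k + 1))) := by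
  have h1 := th_nonneg k
  have h2 := th_lt_one (k + 1)
  have h3 := th_strictMono (Nat.lt_succ_self k)
  simp only [Nat.succ_eq_add_one] at h3
  have h4 : 1 / 2 ≤ th (k + 1) := by
    have : th 1 ≤ th (k + 1) := th_strictMono.monotone (by omega)
    have e : th 1 = 1 / 2 := by unfold th; norm_num
    linarith
  rw [Real.sin_sub_sin, Real.cos_sub_cos]
  set m := (th (k + 1) + th k) / 2 with hm
  have hm' : (th k + th (k + 1)) / 2 = m := by rw [hm]; ring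
  rw [hm']
  set d := (th (k + 1) - th k) / 2 with hd
  have hd' : (th k - th (k + 1)) / 2 = - d := by rw [hd]; ring
  rw [hd', Real.sin_neg]
  have hd0 : 0 < d := by rw [hd]; linarith
  have hd1 : d < 1 := by rw [hd]; linarith
  have hsd : 0 < Real.sin d := Real.sin_pos_of_pos_of_lt_pi hd0 (by linarith [Real.pi_gt_three])
  have hm0 : 1 / 4 ≤ m := by rw [hm]; linarith
  have hm1 : m ≤ 1 := by rw [hm]; linarith [th_lt_one k]
  have hsm : m - m ^ 3 / 6 < Real.sin m := Real.sin_gt_sub_cube (by linarith)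
  have hcm : Real.cos m ≤ 1 := Real.cos_le_one m
  have h5 : m ^ 3 ≤ m := by nlinarith [sq_nonneg m, mul_nonneg (by linarith : (0:ℝ) ≤ m) (by linarith : (0:ℝ) ≤ 1 - m)]
  have h6 : 9 * Real.cos m < 80 * Real.sin m := by linarith
  nlinarith

lemma jmp_inner (k : ℕ) (w : E2) : ⟪jmp b1 b2 k, w - v1⟫_ℝ =
    (Real.cos (th k) - Real.cos (th (k + 1))) * f1 w
      + (Real.sin (th k) - Real.sin (th (k + 1))) * g1 w := by
  rw [jmp_eq, inner_add_left, inner_smul_left, inner_smul_left, f1_eq, g1_eq]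
  simp

lemma base_lt (k : ℕ) {w : E2} (hf : f1 w ≤ 0) (hg : -1 ≤ g1 w) :
    ⟪jmp b1 b2 k, w⟫_ℝ < ⟪jmp b1 b2 k, PP k⟫_ℝ := by
  have h1 := jmp_inner k w
  have h2 := jmp_inner k (PP k)
  rw [inner_sub_right] at h1 h2
  obtain ⟨⟨h3, h4⟩, h5, h6⟩ := PP_mem_bx k
  have h7 := slope k
  have hA : 0 < Real.cos (th k) - Real.cos (th (k + 1)) :=
    sub_pos.2 (cos_th_strictAnti (Nat.lt_succ_self k))
  have hB : 0 < Real.sin (th (k + 1)) - Real.sin (th k) :=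
    sub_pos.2 (sin_th_strictMono (Nat.lt_succ_self k))
  set A := Real.cos (th k) - Real.cos (th (k + 1))
  set B := Real.sin (th (k + 1)) - Real.sin (th k) with hBdef
  have hB' : Real.sin (th k) - Real.sin (th (k + 1)) = - B := by rw [hBdef]; ring
  rw [hB'] at h1 h2
  have a1 : A * f1 w ≤ 0 := mul_nonpos_of_nonneg_of_nonpos hA.le hf
  have a2 : -B * g1 w ≤ B := by nlinarith
  have a3 : A * 10 ≤ A * f1 (PP k) := mul_le_mul_of_nonneg_left h3 hA.le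
  have a4 : B * g1 (PP k) ≤ B * (1 / 8) := mul_le_mul_of_nonneg_left h6 hB.le
  nlinarith

lemma f1_sT : f1 sT ≤ 0 := by
  unfold f1; rw [sT0, sT1]; nlinarith [cc_lt, lt_sqrt3, lt_cc]
lemma f1_sB : f1 sB ≤ 0 := by
  unfold f1; rw [sB0, sB1]; nlinarith [cc_lt, lt_sqrt3, lt_cc]
lemma g1_sT : -1 ≤ g1 sT := by
  unfold g1; rw [sT0, sT1]; nlinarith [cc_lt, lt_sqrt3, lt_cc]
lemma g1_sB : -1 ≤ g1 sB := by
  unfold g1; rw [sB0, sB1]; nlinarith [cc_lt, lt_sqrt3, lt_cc]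
lemma g1_v1 : -1 ≤ g1 v1 := by unfold g1; rw [v10, v11]; norm_num
lemma g1_v2 : -1 ≤ g1 v2 := by unfold g1; rw [v20, v21]; nlinarith [lt_sqrt3]
lemma g1_v3 : -1 ≤ g1 v3 := by unfold g1; rw [v30, v31]; nlinarith [lt_sqrt3]
lemma g1_v4 : -1 ≤ g1 v4 := by unfold g1; rw [v40, v41]; nlinarith [lt_sqrt3]
lemma f1_v1' : f1 v1 ≤ 0 := by unfold f1; rw [v10, v11]; norm_num
lemma f1_v2' : f1 v2 ≤ 0 := by unfold f1; rw [v20, v21]; linarith
lemma f1_v3' : f1 v3 ≤ 0 := by unfold f1; rw [v30, v31]; linarith [lt_sqrt3]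
lemma f1_v4' : f1 v4 ≤ 0 := by unfold f1; rw [v40, v41]; linarith [lt_sqrt3]

lemma exp_PP (k : ℕ) : LocExp (PP k) := by
  apply LocExp.of_global (ν := jmp b1 b2 k)
  have cT := base_lt k f1_sT g1_sT
  have cB := base_lt k f1_sB g1_sB
  have c1 := base_lt k f1_v1' g1_v1
  have c2 := base_lt k f1_v2' g1_v2
  have c3 := base_lt k f1_v3' g1_v3
  have c4 := base_lt k f1_v4' g1_v4
  apply TT_cases
  · intro x hx _; exact seg_lt cT c2 hx
  · intro x hx _; exact seg_lt cT c1 hx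
  · intro x hx _; exact seg_lt cT cB hx
  · intro x hx _; exact seg_lt cB c3 hx
  · intro x hx _; exact seg_lt cB c4 hx
  · intro x hx hne
    rcases Nat.eq_zero_or_pos k with rfl | hk
    · rw [← PP_zero] at hx
      exact seg_lt' c1 hx hne
    · rw [← PP_zero] at hx
      exact seg_lt c1 (PP_lt (by omega)) hx
  · rintro x (hx | hx) hne
    · rw [mem_singleton_iff.1 hx]; exact Pinf_lt k
    · obtain ⟨j, hj⟩ := mem_iUnion.1 hx
      by_cases h1 : j = k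
      · subst h1
        rw [segment_symm] at hj
        exact seg_lt' (PP_lt (by omega)) hj hne
      · by_cases h2 : j + 1 = k
        · subst h2
          exact seg_lt' (PP_lt (by omega)) hj hne
        · exact seg_lt (PP_lt h1) (PP_lt h2) hj

lemma f1_inner (x : E2) : ⟪b1, x⟫_ℝ = f1 x + ⟪b1, v1⟫_ℝ := by
  rw [f1_eq, inner_sub_right]; ring

lemma f1_PP_lt (k : ℕ) : f1 (PP k) < f1 Pinf := by
  have h1 : f1 (PP k) < f1 (PP (k + 1)) := f1_strictMono (Nat.lt_succ_self k)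
  refine lt_of_lt_of_le h1 ?_
  have ht : Tendsto (fun j => f1 (PP j)) atTop (𝓝 (f1 Pinf)) := (f1_cont.tendsto _).comp tendsto_PP
  refine ge_of_tendsto ht ?_
  filter_upwards [eventually_ge_atTop (k + 1)] with j hj
  exact f1_strictMono.monotone hj

lemma exp_Pinf : LocExp Pinf := by
  apply LocExp.of_global (ν := b1)
  have h0 : f1 p0 < f1 Pinf := f1_PP_lt 0
  have h10 := f1_p0
  have key : ∀ w : E2, f1 w ≤ 0 → ⟪b1, w⟫_ℝ < ⟪b1, Pinf⟫_ℝ := by
    intro w hw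
    rw [f1_inner w, f1_inner Pinf]; linarith
  have keyP : ∀ k, ⟪b1, PP k⟫_ℝ < ⟪b1, Pinf⟫_ℝ := by
    intro k
    rw [f1_inner (PP k), f1_inner Pinf]; linarith [f1_PP_lt k]
  apply TT_cases
  · intro x hx _; exact seg_lt (key _ f1_sT) (key _ f1_v2') hx
  · intro x hx _; exact seg_lt (key _ f1_sT) (key _ f1_v1') hx
  · intro x hx _; exact seg_lt (key _ f1_sT) (key _ f1_sB) hx
  · intro x hx _; exact seg_lt (key _ f1_sB) (key _ f1_v3') hx
  · intro x hx _; exact seg_lt (key _ f1_sB) (key _ f1_v4') hx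
  · intro x hx _; exact seg_lt (key _ f1_v1') (keyP 0) hx
  · rintro x (hx | hx) hne
    · exact absurd (mem_singleton_iff.1 hx) hne
    · obtain ⟨j, hj⟩ := mem_iUnion.1 hx
      exact seg_lt (keyP j) (keyP (j + 1)) hj

lemma AA_exp {a : E2} (ha : a ∈ AA) : LocExp a := by
  rcases ha with (rfl | rfl | rfl | ha) | (rfl | ⟨k, rfl⟩)
  · exact exp_v1
  · exact exp_v2
  · exact exp_v3
  · rw [mem_singleton_iff.1 ha]; exact exp_v4
  · exact exp_Pinf
  · exact exp_PP k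

lemma sR_mem : sR ∈ SS := Or.inl (Or.inr (left_mem_segment ℝ _ _))

lemma sR_not_mem : sR ∉ TT := by
  have hc1 := cc_lt; have hc2 := lt_cc
  have key : ∀ x ∈ TT, x ≠ sR := by
    apply TT_cases
    · rintro x hx rfl
      obtain ⟨s, t, hs, ht, hst, h0, -⟩ := seg_coord hx
      rw [sR0, sT0, v20] at h0
      linarith
    · rintro x hx rfl
      obtain ⟨s, t, hs, ht, hst, -, h1⟩ := seg_coord hx
      rw [sR1, sT1, v11] at h1
      nlinarith
    · rintro x hx rfl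
      obtain ⟨s, t, hs, ht, hst, h0, -⟩ := seg_coord hx
      rw [sR0, sT0, sB0] at h0
      linarith
    · rintro x hx rfl
      obtain ⟨s, t, hs, ht, hst, h0, -⟩ := seg_coord hx
      rw [sR0, sB0, v30] at h0
      linarith
    · rintro x hx rfl
      obtain ⟨s, t, hs, ht, hst, -, h1⟩ := seg_coord hx
      rw [sR1, sB1, v41] at h1
      nlinarith
    · rintro x hx rfl
      obtain ⟨s, t, hs, ht, hst, h0, -⟩ := seg_coord hx
      rw [sR0, v10, p00] at h0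
      nlinarith
    · rintro x hx rfl
      obtain ⟨h1, -⟩ := tail_coord hx
      rw [sR0] at h1
      linarith
  intro h
  exact key sR h rfl

lemma SS_ne_TT : SS ≠ TT := fun h => sR_not_mem (h ▸ sR_mem)

end Pool.Agent.Y459.NS
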