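import Mathlib
import Pool.Agent.H270R2.St.Basic

/-!
# Length of a connected set near a segment

If a connected set comes close to every point of a segment, then it has almost the length of the
segment inside a thin tube around it.
-/

set_option autoImplicit false

open scoped MeasureTheory ENNReal
open MeasureTheory Set

namespace Pool.Agent.Y459.NS

open Pool.Agent.H270R2.St (H_lip H_slab noAtom cut H_slab2)

variable {E : Type*} [MetricSpace E] [MeasurableSpace E] [BorelSpace E]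

/-- The open box cut out by two functions. -/
def Box (p l : E → ℝ) (a b η : ℝ) : Set E := {x | a < p x ∧ p x < b ∧ |l x| < η}

lemma Box_open {p l : E → ℝ} (hp : Continuous p) (hl : Continuous l) (a b η : ℝ) :
    IsOpen (Box p l a b η) := by
  have h1 : IsOpen {x | a < p x} := isOpen_lt continuous_const hp
  have h2 : IsOpen {x | p x < b} := isOpen_lt hp continuous_const
  have h3 : IsOpen {x | |l x| < η} := isOpen_lt hl.abs continuous_const
  exact h1.inter (h2.inter h3)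

lemma island {p l : E → ℝ} (hp : LipschitzWith 1 p) (hl : LipschitzWith 1 l) {K : Set E}
    (hK : IsPreconnected K) {a b η ρ : ℝ} (hρ : 0 ≤ ρ) (hη : b - a ≤ η - ρ)
    (hnear : ∀ s ∈ Ioo a b, ∃ x ∈ K, |p x - s| ≤ ρ ∧ |l x| ≤ ρ)
    (hout : ∃ y ∈ K, ¬ (a < p y ∧ p y < b ∧ |l y| < η)) :
    ENNReal.ofReal (b - a - 4 * ρ) ≤ μH[1] (K ∩ Box p l a b η) := by
  by_cases hbad : ∃ t₁ ∈ Ioo a b, ∃ t₂ ∈ Ioo a b, t₁ + 2 * ρ < t₂ ∧
      (∀ x ∈ K, p x = t₁ → η ≤ |l x|) ∧ (∀ x ∈ K, p x = t₂ → η ≤ |l x|)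
  · obtain ⟨t₁, ht₁, t₂, ht₂, h12, hb1, hb2⟩ := hbad
    have key : ∀ σ ∈ Ioo ρ η, ∃ x ∈ K, (t₁ < p x ∧ p x < t₂) ∧ |l x| = σ := by
      intro σ hσ
      by_contra hcon
      push Not at hcon
      obtain ⟨x0, hx0, hx1, hx2⟩ := hnear ((t₁ + t₂) / 2) ⟨by linarith [ht₁.1], by linarith [ht₂.2]⟩
      obtain ⟨y0, hy0, hy1⟩ := hout
      set U : Set E := Box p l t₁ t₂ σ with hU
      set V : Set E := {x | ¬ (t₁ ≤ p x ∧ p x ≤ t₂ ∧ |l x| ≤ σ)} with hV
      have hUo : IsOpen U := Box_open hp.continuous hl.continuous _ _ _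
      have hVo : IsOpen V := by
        have hc : IsClosed {x | t₁ ≤ p x ∧ p x ≤ t₂ ∧ |l x| ≤ σ} := by
          have h1 : IsClosed {x | t₁ ≤ p x} := isClosed_le continuous_const hp.continuous
          have h2 : IsClosed {x | p x ≤ t₂} := isClosed_le hp.continuous continuous_const
          have h3 : IsClosed {x | |l x| ≤ σ} := isClosed_le hl.continuous.abs continuous_const
          exact h1.inter (h2.inter h3)
        exact hc.isOpen_compl
      have hcov : K ⊆ U ∪ V := by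
        intro x hx
        by_cases hxV : x ∈ V
        · exact Or.inr hxV
        · left
          have hx' : t₁ ≤ p x ∧ p x ≤ t₂ ∧ |l x| ≤ σ := not_not.1 hxV
          have h1 : p x ≠ t₁ := fun h => by
            have := hb1 x hx h
            linarith [hσ.2, hx'.2.2]
          have h2 : p x ≠ t₂ := fun h => by
            have := hb2 x hx h
            linarith [hσ.2, hx'.2.2]
          have h3 : t₁ < p x := lt_of_le_of_ne hx'.1 (Ne.symm h1)
          have h4 : p x < t₂ := lt_of_le_of_ne hx'.2.1 h2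
          exact ⟨h3, h4, lt_of_le_of_ne hx'.2.2 (hcon x hx ⟨h3, h4⟩)⟩
      have hx0U : x0 ∈ U := by
        have := abs_le.1 hx1
        refine ⟨by linarith, by linarith, lt_of_le_of_lt hx2 hσ.1⟩
      have hy0V : y0 ∈ V := by
        rintro ⟨h1, h2, h3⟩
        exact hy1 ⟨by linarith [ht₁.1], by linarith [ht₂.2], by linarith [hσ.2]⟩
      obtain ⟨z, -, hzU, hzV⟩ := hK U V hUo hVo hcov ⟨x0, hx0, hx0U⟩ ⟨y0, hy0, hy0V⟩
      exact hzV ⟨hzU.1.le, hzU.2.1.le, hzU.2.2.le⟩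
    have hlabs : LipschitzWith 1 (fun x => |l x|) := by
      rw [lipschitzWith_iff_dist_le_mul] at hl ⊢
      intro x y
      rw [Real.dist_eq]
      exact (abs_abs_sub_abs_le_abs_sub _ _).trans (by simpa [Real.dist_eq] using hl x y)
    have h1 : Ioo ρ η ⊆ (fun x => |l x|) '' (K ∩ Box p l a b η) := by
      intro σ hσ
      obtain ⟨x, hx, ⟨h1, h2⟩, h3⟩ := key σ hσ
      exact ⟨x, ⟨hx, by linarith [ht₁.1], by linarith [ht₂.2], by rw [h3]; exact hσ.2⟩, h3⟩
    calc ENNReal.ofReal (b - a - 4 * ρ) ≤ ENNReal.ofReal (η - ρ) :=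
          ENNReal.ofReal_le_ofReal (by linarith)
      _ = volume (Ioo ρ η) := by rw [Real.volume_Ioo]
      _ ≤ volume ((fun x => |l x|) '' (K ∩ Box p l a b η)) := measure_mono h1
      _ ≤ _ := H_lip hlabs _
  · push Not at hbad
    have hcover : ∃ t₀ : ℝ, Ioo a b ⊆ p '' (K ∩ Box p l a b η) ∪ Icc (t₀ - 2 * ρ) (t₀ + 2 * ρ) := by
      by_cases hB : ∃ t ∈ Ioo a b, ∀ x ∈ K, p x = t → η ≤ |l x|
      · obtain ⟨t₀, ht₀, hb0⟩ := hB
        refine ⟨t₀, ?_⟩
        intro t ht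
        by_cases hbt : ∀ x ∈ K, p x = t → η ≤ |l x|
        · right
          constructor
          · by_contra h
            push Not at h
            obtain ⟨x, hx, hxt, hx2⟩ := hbad t ht t₀ ht₀ (by linarith) hbt
            exact absurd (hb0 x hx hxt) (not_le.2 hx2)
          · by_contra h
            push Not at h
            obtain ⟨x, hx, hxt, hx2⟩ := hbad t₀ ht₀ t ht (by linarith) hb0
            exact absurd (hbt x hx hxt) (not_le.2 hx2)
        · left
          push Not at hbt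
          obtain ⟨x, hx, hxt, hx2⟩ := hbt
          exact ⟨x, ⟨hx, by rw [hxt]; exact ht.1, by rw [hxt]; exact ht.2, hx2⟩, hxt⟩
      · push Not at hB
        refine ⟨0, ?_⟩
        intro t ht
        left
        obtain ⟨x, hx, hxt, hx2⟩ := hB t ht
        exact ⟨x, ⟨hx, by rw [hxt]; exact ht.1, by rw [hxt]; exact ht.2, hx2⟩, hxt⟩
    obtain ⟨t₀, hcov⟩ := hcover
    have h1 : ENNReal.ofReal (b - a) ≤ μH[1] (K ∩ Box p l a b η) + ENNReal.ofReal (4 * ρ) := by
      calc ENNReal.ofReal (b - a) = volume (Ioo a b) := by rw [Real.volume_Ioo]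
        _ ≤ volume (p '' (K ∩ Box p l a b η) ∪ Icc (t₀ - 2 * ρ) (t₀ + 2 * ρ)) := measure_mono hcov
        _ ≤ volume (p '' (K ∩ Box p l a b η)) + volume (Icc (t₀ - 2 * ρ) (t₀ + 2 * ρ)) :=
            measure_union_le _ _
        _ ≤ μH[1] (K ∩ Box p l a b η) + ENNReal.ofReal (4 * ρ) := by
            gcongr
            · exact H_lip hp _
            · rw [Real.volume_Icc]
              exact ENNReal.ofReal_le_ofReal (by linarith)
    calc ENNReal.ofReal (b - a - 4 * ρ) = ENNReal.ofReal (b - a) - ENNReal.ofReal (4 * ρ) :=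
          ENNReal.ofReal_sub _ (by linarith)
      _ ≤ _ := tsub_le_iff_right.2 h1

lemma tube {p l : E → ℝ} (hp : LipschitzWith 1 p) (hl : LipschitzWith 1 l) {K : Set E}
    (hKc : IsCompact K) (hK : IsPreconnected K) {a w η ρ : ℝ} (hρ : 0 ≤ ρ) (hw : 0 ≤ w)
    (hη : w ≤ η - ρ) (N : ℕ)
    (hnear : ∀ s ∈ Ioo a (a + N * w), ∃ x ∈ K, |p x - s| ≤ ρ ∧ |l x| ≤ ρ)
    (hout : ∃ y ∈ K, ¬ (a < p y ∧ p y < a + N * w ∧ |l y| < η)) :
    ENNReal.ofReal (N * (w - 4 * ρ)) ≤ μH[1] (K ∩ Box p l a (a + N * w) η) := by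
  induction N with
  | zero => simp
  | succ N ih =>
    have hle : a + N * w ≤ a + (N + 1 : ℕ) * w := by push_cast; nlinarith
    have hle0 : a ≤ a + N * w := by nlinarith [mul_nonneg (Nat.cast_nonneg (α := ℝ) N) hw]
    obtain ⟨y, hy, hy2⟩ := hout
    have ih' := ih (fun s hs => hnear s ⟨hs.1, lt_of_lt_of_le hs.2 hle⟩)
      ⟨y, hy, fun h => hy2 ⟨h.1, lt_of_lt_of_le h.2.1 hle, h.2.2⟩⟩
    have hlast := island (a := a + N * w) (b := a + (N + 1 : ℕ) * w) (η := η) (ρ := ρ) hp hl hK hρ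
      (by push_cast; linarith)
      (fun s hs => hnear s ⟨lt_of_le_of_lt hle0 hs.1, hs.2⟩)
      ⟨y, hy, fun h => hy2 ⟨lt_of_le_of_lt hle0 h.1, h.2.1, h.2.2⟩⟩
    have hdisj : Disjoint (K ∩ Box p l a (a + N * w) η)
        (K ∩ Box p l (a + N * w) (a + (N + 1 : ℕ) * w) η) := by
      rw [Set.disjoint_left]
      rintro x ⟨_, h1⟩ ⟨_, h2⟩
      exact absurd h1.2.1 (not_lt.2 h2.1.le)
    have hmeas : MeasurableSet (K ∩ Box p l (a + N * w) (a + (N + 1 : ℕ) * w) η) :=
      hKc.measurableSet.inter (Box_open hp.continuous hl.continuous _ _ _).measurableSet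
    have hsub : (K ∩ Box p l a (a + N * w) η) ∪
        (K ∩ Box p l (a + N * w) (a + (N + 1 : ℕ) * w) η) ⊆
        K ∩ Box p l a (a + (N + 1 : ℕ) * w) η := by
      rintro x (⟨h1, h2⟩ | ⟨h1, h2⟩)
      · exact ⟨h1, h2.1, lt_of_lt_of_le h2.2.1 hle, h2.2.2⟩
      · exact ⟨h1, lt_of_le_of_lt hle0 h2.1, h2.2.1, h2.2.2⟩
    calc ENNReal.ofReal ((N + 1 : ℕ) * (w - 4 * ρ))
        = ENNReal.ofReal (N * (w - 4 * ρ) + (a + (N + 1 : ℕ) * w - (a + N * w) - 4 * ρ)) := by
          congr 1; push_cast; ring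
      _ ≤ ENNReal.ofReal (N * (w - 4 * ρ)) +
          ENNReal.ofReal (a + (N + 1 : ℕ) * w - (a + N * w) - 4 * ρ) := ENNReal.ofReal_add_le
      _ ≤ μH[1] (K ∩ Box p l a (a + N * w) η) +
          μH[1] (K ∩ Box p l (a + N * w) (a + (N + 1 : ℕ) * w) η) := add_le_add ih' hlast
      _ = μH[1] ((K ∩ Box p l a (a + N * w) η) ∪
          (K ∩ Box p l (a + N * w) (a + (N + 1 : ℕ) * w) η)) :=
          (measure_union hdisj hmeas).symm
      _ ≤ _ := measure_mono hsub

/-- If a compact connected set crosses a slab and is not too long inside the slab, then some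
level set of the slab function is a single point. -/
lemma exists_cut {f : E → ℝ} (hf : LipschitzWith 1 f) {K : Set E} (hKc : IsCompact K)
    (hK : IsPreconnected K) {x y : E} (hx : x ∈ K) (hy : y ∈ K) {a b : ℝ} (ha : f x ≤ a)
    (hb : b ≤ f y)
    (h : μH[1] (K ∩ f ⁻¹' Ioo a b) < 2 * ENNReal.ofReal (b - a)) :
    ∃ t ∈ Ioo a b, ∃ q, K ∩ f ⁻¹' {t} = {q} := by
  by_contra hcon
  push Not at hcon
  refine absurd (H_slab2 hf hKc (a := a) (b := b) ?_) (not_le.2 h)
  intro t ht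
  obtain ⟨z, hz, hzt⟩ := hK.intermediate_value hx hy hf.continuous.continuousOn
    ⟨ha.trans ht.1.le, ht.2.le.trans hb⟩
  have hne := hcon t ht z
  have : ∃ z' ∈ K ∩ f ⁻¹' {t}, z' ≠ z := by
    by_contra h'
    push Not at h'
    exact hne (Set.eq_singleton_iff_unique_mem.2 ⟨⟨hz, hzt⟩, h'⟩)
  obtain ⟨z', hz', hzz'⟩ := this
  exact ⟨z, hz, z', hz'.1, hzz'.symm, hzt, hz'.2⟩

end Pool.Agent.Y459.NS
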