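import Mathlib
import Pool.Agent.Y459.NS.Config
import Pool.Agent.Y459.NS.Tube

/-!
# Both trees are Steiner trees
-/

set_option autoImplicit false

open scoped MeasureTheory ENNReal InnerProductSpace
open MeasureTheory Set Filter Topology

namespace Pool.Agent.Y459.NS

open Pool.Agent.H270R2.St (cut cut' noAtom)

lemma lip_inner {u : E2} (hu : ‖u‖ = 1) (z : E2) : LipschitzWith 1 (fun x => ⟪u, x - z⟫_ℝ) := by
  rw [lipschitzWith_iff_dist_le_mul]
  intro x y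
  rw [Real.dist_eq, ← inner_sub_right, sub_sub_sub_cancel_right, NNReal.coe_one, one_mul,
    dist_eq_norm]
  have := abs_real_inner_le_norm u (x - y)
  rwa [hu, one_mul] at this

lemma f1_lip : LipschitzWith 1 f1 := by
  have h := lip_inner nb1 v1
  have e : f1 = fun x => ⟪b1, x - v1⟫_ℝ := by funext x; exact f1_eq x
  rw [e]; exact h

lemma dir_zero : dir b1 b2 0 = b1 := by
  unfold dir; rw [th_zero, Real.cos_zero, Real.sin_zero]; simp

lemma inner_b1_sub (x y : E2) : ⟪b1, x - y⟫_ℝ = f1 x - f1 y := by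
  rw [f1_eq, f1_eq, ← inner_sub_right]; congr 1; abel

/-- Splitting the length at a single point. -/
lemma meas_split {f : E2 → ℝ} {K : Set E2} (hKc : IsCompact K) (hf : Continuous f) {t : ℝ} {q : E2}
    (hq : K ∩ f ⁻¹' {t} = {q}) :
    μH[1] (K ∩ f ⁻¹' Iic t) + μH[1] (K ∩ f ⁻¹' Ici t) = μH[1] K := by
  have h1 : (K ∩ f ⁻¹' Iic t) ∪ (K ∩ f ⁻¹' Ici t) = K := by
    rw [← inter_union_distrib_left, ← preimage_union, Iic_union_Ici, preimage_univ, inter_univ]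
  have h2 : (K ∩ f ⁻¹' Iic t) ∩ (K ∩ f ⁻¹' Ici t) = {q} := by
    rw [← inter_inter_distrib_left, ← preimage_inter, Iic_inter_Ici, Icc_self, hq]
  have h3 := measure_union_add_inter (μ := (μH[1] : Measure E2)) (K ∩ f ⁻¹' Iic t)
    (hKc.measurableSet.inter (hf.measurable measurableSet_Ici) : MeasurableSet (K ∩ f ⁻¹' Ici t))
  rw [h1, h2, noAtom, add_zero] at h3
  exact h3.symm

lemma LT_lt : LT < 16 := by unfold LT; linarith [sqrt3_lt]

lemma f1_v1 : f1 v1 = 0 := by unfold f1; rw [v10, v11]; ring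
lemma f1_v2 : f1 v2 ≤ 0 := by unfold f1; rw [v20, v21]; linarith
lemma f1_v3 : f1 v3 ≤ 0 := by unfold f1; rw [v30, v31]; linarith [lt_sqrt3]
lemma f1_v4 : f1 v4 ≤ 0 := by unfold f1; rw [v40, v41]; linarith [lt_sqrt3]

theorem lowerA {W : Set E2} (hWc : IsCompact W) (hW : IsConnected W) (hA : AA ⊆ W) :
    ENNReal.ofReal LT ≤ μH[1] W := by
  by_contra hcon
  push Not at hcon
  have hv1 : v1 ∈ W := hA (Or.inl (by simp))
  have hv2 : v2 ∈ W := hA (Or.inl (by simp))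
  have hv3 : v3 ∈ W := hA (Or.inl (by simp))
  have hv4 : v4 ∈ W := hA (Or.inl (by simp))
  have hP : ∀ k, PP k ∈ W := fun k => hA (Or.inr (Or.inr ⟨k, rfl⟩))
  have hlt : μH[1] (W ∩ f1 ⁻¹' Ioo 0 10) < 2 * ENNReal.ofReal (10 - 0) := by
    refine lt_of_le_of_lt (measure_mono inter_subset_left) (hcon.trans_le ?_)
    rw [show (2 : ℝ≥0∞) = ENNReal.ofReal 2 by simp, ← ENNReal.ofReal_mul (by norm_num)]
    exact ENNReal.ofReal_le_ofReal (by linarith [LT_lt])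
  obtain ⟨t, ht, q, hq⟩ := exists_cut f1_lip hWc hW.isPreconnected hv1 (hP 0) (a := 0) (b := 10)
    f1_v1.le (by rw [PP_zero, f1_p0]) hlt
  have hqW : q ∈ W ∩ f1 ⁻¹' {t} := by rw [hq]; rfl
  have hqt : f1 q = t := hqW.2
  have hAc := cut hWc.isClosed hW.isPreconnected f1_cont hq
  have hBc := cut' hWc.isClosed hW.isPreconnected f1_cont hq
  have hsum := meas_split hWc f1_cont hq
  have hA1 := sq_lower hAc ⟨hv1, by show f1 v1 ≤ t; rw [f1_v1]; exact ht.1.le⟩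
    ⟨hv2, f1_v2.trans ht.1.le⟩ ⟨hv3, f1_v3.trans ht.1.le⟩ ⟨hv4, f1_v4.trans ht.1.le⟩
    (q := q) ⟨hqW.1, hqt.le⟩ (by rw [hqt]; exact ht.1.le)
  have hPB : ∀ k, PP k ∈ W ∩ f1 ⁻¹' Ici t := fun k =>
    ⟨hP k, ht.2.le.trans (PP_mem_bx k).1.1⟩
  have hB1 := tail_lower (p₀ := p0) nb1 nb2 ib12 hBc (q := q) ⟨hqW.1, hqt.ge⟩
    (fun k => ⟨PP k, hPB k, by
      show 0 ≤ ⟪jmp b1 b2 k, PP k - PP k⟫_ℝ
      rw [sub_self, inner_zero_right]⟩)
    (fun n => ⟨PP n, hPB n, by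
      show 0 ≤ ⟪dir b1 b2 n, PP n - PP n⟫_ℝ
      rw [sub_self, inner_zero_right]⟩)
  rw [dir_zero, inner_b1_sub, f1_p0, hqt] at hB1
  rw [hqt] at hA1
  have hfin : ENNReal.ofReal LT ≤ μH[1] W := by
    rw [← hsum]
    refine le_trans (le_of_eq ?_) (add_le_add hA1 hB1)
    rw [← ENNReal.ofReal_add (by have := ht.1; positivity) (by linarith [ht.2])]
    congr 1; unfold LT; ring
  exact absurd hfin (not_le.2 hcon)

end Pool.Agent.Y459.NS
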