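import Mathlib
import Pool.Agent.H270R2.St.Rigid
import Pool.Agent.Y459.NS.LowerA

/-!
# The tree `SS` is a maximal distance minimizer
-/

set_option autoImplicit false

open scoped MeasureTheory ENNReal InnerProductSpace
open MeasureTheory Set Filter Topology

namespace Pool.Agent.Y459.NS

open Pool.Agent.H270R2.St (cut cut' noAtom tripod_cal)

/-- The radius. -/
noncomputable def rr : ℝ := 1 / 100000

lemma rr_pos : 0 < rr := by unfold rr; norm_num

/-- The closed neighbourhood of the tree. -/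
noncomputable def MM : Set E2 := {y | Metric.infDist y SS ≤ rr}

lemma SS_nonempty : SS.Nonempty := ⟨Pinf, Or.inr Pinf_mem_tail⟩

lemma MM_compact : IsCompact MM := by
  have hcl : IsClosed MM :=
    isClosed_le (Metric.continuous_infDist_pt SS) continuous_const
  refine Metric.isCompact_of_isClosed_isBounded hcl ?_
  have hb := SS_compact.isBounded.cthickening (δ := rr)
  refine hb.subset ?_
  intro y hy
  rw [Metric.mem_cthickening_iff]
  have h1 : Metric.infDist y SS ≤ rr := hy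
  rw [Metric.infDist, ← ENNReal.le_ofReal_iff_toReal_le (Metric.infEDist_ne_top SS_nonempty)
    rr_pos.le] at h1
  exact h1

lemma touch {W : Set E2} (hWc : IsCompact W) (hW : IsConnected W)
    (hcov : ∀ y ∈ MM, Metric.infDist y W ≤ rr) {a : E2} (ha : a ∈ SS) (h : E2) :
    ∃ q ∈ W, 0 ≤ ⟪h, q - a⟫_ℝ ∧ dist q a ≤ 2 * rr := by
  have hr := rr_pos
  -- unit vectors
  have key : ∀ v : E2, ‖v‖ ≤ 1 → ∃ q ∈ W, ‖q - a‖ ^ 2 ≤ 2 * rr * ⟪v, q - a⟫_ℝ + rr ^ 2 -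
      rr ^ 2 * ‖v‖ ^ 2 ∧ dist q a ≤ 2 * rr := by
    intro v hv
    set y : E2 := a + rr • v with hy
    have hya : dist y a ≤ rr := by
      rw [hy, dist_self_add_left, norm_smul, Real.norm_eq_abs, abs_of_pos hr]
      nlinarith
    have hyM : y ∈ MM := (Metric.infDist_le_dist_of_mem ha).trans hya
    obtain ⟨q, hq, hqd⟩ := hWc.exists_infDist_eq_dist hW.nonempty y
    have hyq : dist y q ≤ rr := by rw [← hqd]; exact hcov y hyM
    refine ⟨q, hq, ?_, ?_⟩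
    · have e : y - q = rr • v - (q - a) := by rw [hy]; abel
      rw [dist_eq_norm, e] at hyq
      have h2 : ‖rr • v - (q - a)‖ ^ 2 ≤ rr ^ 2 := by
        have := norm_nonneg (rr • v - (q - a))
        nlinarith
      rw [norm_sub_sq_real, norm_smul, inner_smul_left, Real.norm_eq_abs, abs_of_pos hr] at h2
      simp only [conj_trivial] at h2
      nlinarith
    · calc dist q a ≤ dist q y + dist y a := dist_triangle _ _ _
        _ ≤ rr + rr := add_le_add (by rw [dist_comm]; exact hyq) hya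
        _ = 2 * rr := by ring
  rcases eq_or_ne h 0 with rfl | hne
  · obtain ⟨q, hq, -, h2⟩ := key 0 (by simp)
    exact ⟨q, hq, by rw [inner_zero_left], h2⟩
  · have hpos : 0 < ‖h‖ := norm_pos_iff.2 hne
    have hn : ‖(‖h‖⁻¹ • h)‖ = 1 := by
      rw [norm_smul, norm_inv, norm_norm, inv_mul_cancel₀ hpos.ne']
    obtain ⟨q, hq, h1, h2⟩ := key (‖h‖⁻¹ • h) hn.le
    refine ⟨q, hq, ?_, h2⟩
    rw [hn, inner_smul_left] at h1
    simp only [conj_trivial] at h1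
    have h3 : 0 ≤ ‖q - a‖ ^ 2 := by positivity
    have h4 : 0 ≤ 2 * rr * (‖h‖⁻¹ * ⟪h, q - a⟫_ℝ) := by nlinarith
    have h5 : 0 ≤ ‖h‖⁻¹ * ⟪h, q - a⟫_ℝ := by
      by_contra hneg
      push Not at hneg
      nlinarith
    exact nonneg_of_mul_nonneg_right h5 (inv_pos.2 hpos)

lemma near {W : Set E2} (hWc : IsCompact W) (hW : IsConnected W)
    (hcov : ∀ y ∈ MM, Metric.infDist y W ≤ rr) {a : E2} (ha : a ∈ SS) :
    ∃ q ∈ W, dist q a ≤ 2 * rr := by
  obtain ⟨q, hq, -, h⟩ := touch hWc hW hcov ha 0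
  exact ⟨q, hq, h⟩

lemma seg_point {z w u : E2} {l s : ℝ} (hw : w = z + l • u) (hl : 0 < l) (h0 : 0 ≤ s) (h1 : s ≤ l) :
    z + s • u ∈ segment ℝ z w := by
  rw [segment_eq_image']
  refine ⟨s / l, ⟨div_nonneg h0 hl.le, (div_le_one hl).2 h1⟩, ?_⟩
  show z + (s / l) • (w - z) = z + s • u
  rw [hw, add_sub_cancel_left, smul_smul, div_mul_cancel₀ _ hl.ne']

/-- The length inside a tube around a segment of `SS`. -/
lemma tube_seg {W : Set E2} (hWc : IsCompact W) (hW : IsConnected W)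
    (hcov : ∀ y ∈ MM, Metric.infDist y W ≤ rr) {z u n : E2} (hu : ‖u‖ = 1) (hn : ‖n‖ = 1)
    (hun : ⟪u, n⟫_ℝ = 0) (N : ℕ)
    (hseg : ∀ s : ℝ, 1 / 10 < s → s < 1 / 10 + N * (1 / 25) → z + s • u ∈ SS)
    (hout : ∃ y ∈ W, ¬ (1 / 10 < ⟪u, y - z⟫_ℝ ∧ ⟪u, y - z⟫_ℝ < 1 / 10 + N * (1 / 25) ∧
      |⟪n, y - z⟫_ℝ| < 1 / 20)) :
    ENNReal.ofReal (N * (1 / 25 - 4 * (2 * rr))) ≤
      μH[1] (W ∩ Box (fun x => ⟪u, x - z⟫_ℝ) (fun x => ⟪n, x - z⟫_ℝ) (1 / 10)
        (1 / 10 + N * (1 / 25)) (1 / 20)) := by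
  have hr := rr_pos
  refine tube (lip_inner hu z) (lip_inner hn z) hWc hW.isPreconnected (ρ := 2 * rr)
    (by positivity) (by norm_num) (by unfold rr; norm_num) N ?_ hout
  intro s hs
  obtain ⟨q, hq, hqd⟩ := near hWc hW hcov (hseg s hs.1 hs.2)
  refine ⟨q, hq, ?_, ?_⟩
  · have e : ⟪u, q - z⟫_ℝ - s = ⟪u, q - (z + s • u)⟫_ℝ := by
      have : q - (z + s • u) = (q - z) - s • u := by abel
      have e' : ⟪u, (q - z) - s • u⟫_ℝ = ⟪u, q - z⟫_ℝ - ⟪u, s • u⟫_ℝ := inner_sub_right _ _ _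
      rw [this, e', inner_smul_right, real_inner_self_eq_norm_sq, hu]; ring
    show |⟪u, q - z⟫_ℝ - s| ≤ 2 * rr
    rw [e]
    refine (abs_real_inner_le_norm _ _).trans ?_
    rw [hu, one_mul, ← dist_eq_norm]; exact hqd
  · have e : ⟪n, q - z⟫_ℝ = ⟪n, q - (z + s • u)⟫_ℝ := by
      have : q - (z + s • u) = (q - z) - s • u := by abel
      have e' : ⟪n, (q - z) - s • u⟫_ℝ = ⟪n, q - z⟫_ℝ - ⟪n, s • u⟫_ℝ := inner_sub_right _ _ _
      have e'' : ⟪n, u⟫_ℝ = 0 := by rw [real_inner_comm]; exact hun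
      rw [this, e', inner_smul_right, e'']; ring
    show |⟪n, q - z⟫_ℝ| ≤ 2 * rr
    rw [e]
    refine (abs_real_inner_le_norm _ _).trans ?_
    rw [hn, one_mul, ← dist_eq_norm]; exact hqd

noncomputable def u120 : E2 := !₂[-(1 / 2), Real.sqrt 3 / 2]
noncomputable def u240 : E2 := !₂[-(1 / 2), -(Real.sqrt 3 / 2)]
noncomputable def u300 : E2 := !₂[1 / 2, -(Real.sqrt 3 / 2)]
noncomputable def n120 : E2 := !₂[Real.sqrt 3 / 2, 1 / 2]
noncomputable def n240 : E2 := !₂[Real.sqrt 3 / 2, -(1 / 2)]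
noncomputable def ex : E2 := !₂[1, 0]

lemma u120_0 : u120 0 = -(1 / 2) := rfl
lemma u120_1 : u120 1 = Real.sqrt 3 / 2 := rfl
lemma u240_0 : u240 0 = -(1 / 2) := rfl
lemma u240_1 : u240 1 = -(Real.sqrt 3 / 2) := rfl
lemma u300_0 : u300 0 = 1 / 2 := rfl
lemma u300_1 : u300 1 = -(Real.sqrt 3 / 2) := rfl
lemma n120_0 : n120 0 = Real.sqrt 3 / 2 := rfl
lemma n120_1 : n120 1 = 1 / 2 := rfl
lemma n240_0 : n240 0 = Real.sqrt 3 / 2 := rfl
lemma n240_1 : n240 1 = -(1 / 2) := rfl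
lemma ex_0 : ex 0 = 1 := rfl
lemma ex_1 : ex 1 = 0 := rfl

lemma nu120 : ‖u120‖ = 1 := by
  apply norm_of_inner; rw [inner_E2, u120_0, u120_1]; nlinarith [sqrt3_sq]
lemma nu240 : ‖u240‖ = 1 := by
  apply norm_of_inner; rw [inner_E2, u240_0, u240_1]; nlinarith [sqrt3_sq]
lemma nu300 : ‖u300‖ = 1 := by
  apply norm_of_inner; rw [inner_E2, u300_0, u300_1]; nlinarith [sqrt3_sq]
lemma nn120 : ‖n120‖ = 1 := by
  apply norm_of_inner; rw [inner_E2, n120_0, n120_1]; nlinarith [sqrt3_sq]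
lemma nn240 : ‖n240‖ = 1 := by
  apply norm_of_inner; rw [inner_E2, n240_0, n240_1]; nlinarith [sqrt3_sq]
lemma nex : ‖ex‖ = 1 := by
  apply norm_of_inner; rw [inner_E2, ex_0, ex_1]; norm_num

lemma v2_eq : v2 = sL + (2 * Real.sqrt 3 / 3) • u120 := by
  have h3 := sqrt3_sq
  ext i
  fin_cases i
  · show v2 0 = (sL + (2 * Real.sqrt 3 / 3) • u120) 0
    rw [PiLp.add_apply, PiLp.smul_apply, smul_eq_mul, v20, sL0, u120_0]; unfold cc; ring
  · show v2 1 = (sL + (2 * Real.sqrt 3 / 3) • u120) 1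
    rw [PiLp.add_apply, PiLp.smul_apply, smul_eq_mul, v21, sL1, u120_1]
    linear_combination (-1/3) * h3

lemma v3_eq : v3 = sL + (2 * Real.sqrt 3 / 3) • u240 := by
  have h3 := sqrt3_sq
  ext i
  fin_cases i
  · show v3 0 = (sL + (2 * Real.sqrt 3 / 3) • u240) 0
    rw [PiLp.add_apply, PiLp.smul_apply, smul_eq_mul, v30, sL0, u240_0]; unfold cc; ring
  · show v3 1 = (sL + (2 * Real.sqrt 3 / 3) • u240) 1
    rw [PiLp.add_apply, PiLp.smul_apply, smul_eq_mul, v31, sL1, u240_1]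
    linear_combination (1/3) * h3

lemma v4_eq : v4 = sR + (2 * Real.sqrt 3 / 3) • u300 := by
  have h3 := sqrt3_sq
  ext i
  fin_cases i
  · show v4 0 = (sR + (2 * Real.sqrt 3 / 3) • u300) 0
    rw [PiLp.add_apply, PiLp.smul_apply, smul_eq_mul, v40, sR0, u300_0]; unfold cc; ring
  · show v4 1 = (sR + (2 * Real.sqrt 3 / 3) • u300) 1
    rw [PiLp.add_apply, PiLp.smul_apply, smul_eq_mul, v41, sR1, u300_1]
    linear_combination (1/3) * h3

lemma p0_eq : p0 = sR + (2 * Real.sqrt 3 / 3 + 10) • b1 := by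
  have h3 := sqrt3_sq
  ext i
  fin_cases i
  · show p0 0 = (sR + (2 * Real.sqrt 3 / 3 + 10) • b1) 0
    rw [PiLp.add_apply, PiLp.smul_apply, smul_eq_mul, p00, sR0, b10]; unfold cc; ring
  · show p0 1 = (sR + (2 * Real.sqrt 3 / 3 + 10) • b1) 1
    rw [PiLp.add_apply, PiLp.smul_apply, smul_eq_mul, p01, sR1, b11]
    linear_combination (-1/3) * h3

lemma e_lip : LipschitzWith 1 (fun x : E2 => x 0) := by
  have h := lip_inner nex 0
  have e : (fun x : E2 => x 0) = fun x => ⟪ex, x - 0⟫_ℝ := by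
    funext x
    rw [inner_E2, ex_0, ex_1, sub_zero]; ring
  rw [e]; exact h

lemma coord_near {q a : E2} {ε : ℝ} (h : dist q a ≤ ε) : |q 0 - a 0| ≤ ε := by
  have := e_lip.dist_le_mul q a
  rw [NNReal.coe_one, one_mul, Real.dist_eq] at this
  exact this.trans h

lemma f1_near {q a : E2} {ε : ℝ} (h : dist q a ≤ ε) : |f1 q - f1 a| ≤ ε := by
  have := f1_lip.dist_le_mul q a
  rw [NNReal.coe_one, one_mul, Real.dist_eq] at this
  exact this.trans h

lemma AA_v2 : v2 ∈ SS := AA_sub_SS (Or.inl (by simp))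
lemma AA_v3 : v3 ∈ SS := AA_sub_SS (Or.inl (by simp))
lemma AA_v4 : v4 ∈ SS := AA_sub_SS (Or.inl (by simp))
lemma AA_PP (k : ℕ) : PP k ∈ SS := AA_sub_SS (Or.inr (Or.inr ⟨k, rfl⟩))

/-- The middle edge is crossed only once somewhere. -/
lemma slab_short {W : Set E2} (hWc : IsCompact W) (hW : IsConnected W)
    (hcov : ∀ y ∈ MM, Metric.infDist y W ≤ rr) (hlt : μH[1] W < ENNReal.ofReal LT) :
    μH[1] (W ∩ (fun x : E2 => x 0) ⁻¹' Ioo (-(2 / 5)) (2 / 5)) <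
      2 * ENNReal.ofReal (2 / 5 - (-(2 / 5))) := by
  by_contra hcon
  push Not at hcon
  have h3 := sqrt3_sq
  have hl := lt_sqrt3
  have hu := sqrt3_lt
  have hr := rr_pos
  have hrv : rr = 1 / 100000 := rfl
  obtain ⟨y2, hy2, hy2d⟩ := near hWc hW hcov AA_v2
  obtain ⟨y4, hy4, hy4d⟩ := near hWc hW hcov AA_v4
  have hy20 := abs_le.1 (coord_near hy2d)
  have hy40 := abs_le.1 (coord_near hy4d)
  rw [v20] at hy20
  rw [v40] at hy40
  -- coordinates from the tube coordinates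
  have c120 : ∀ x : E2, x 0 = - cc - ⟪u120, x - sL⟫_ℝ / 2 + Real.sqrt 3 / 2 * ⟪n120, x - sL⟫_ℝ ∧
      x 1 = Real.sqrt 3 / 2 * ⟪u120, x - sL⟫_ℝ + ⟪n120, x - sL⟫_ℝ / 2 := by
    intro x
    rw [inner_E2, inner_E2, PiLp.sub_apply, PiLp.sub_apply, u120_0, u120_1, n120_0, n120_1, sL0,
      sL1]
    constructor
    · linear_combination (-(x 0 + cc) / 4) * h3
    · linear_combination (-(x 1) / 4) * h3
  have c240 : ∀ x : E2, x 0 = - cc - ⟪u240, x - sL⟫_ℝ / 2 + Real.sqrt 3 / 2 * ⟪n240, x - sL⟫_ℝ ∧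
      x 1 = - (Real.sqrt 3 / 2) * ⟪u240, x - sL⟫_ℝ - ⟪n240, x - sL⟫_ℝ / 2 := by
    intro x
    rw [inner_E2, inner_E2, PiLp.sub_apply, PiLp.sub_apply, u240_0, u240_1, n240_0, n240_1, sL0,
      sL1]
    constructor
    · linear_combination (-(x 0 + cc) / 4) * h3
    · linear_combination (-(x 1) / 4) * h3
  have c300 : ∀ x : E2, x 0 = cc + ⟪u300, x - sR⟫_ℝ / 2 + Real.sqrt 3 / 2 * ⟪n120, x - sR⟫_ℝ ∧
      x 1 = - (Real.sqrt 3 / 2) * ⟪u300, x - sR⟫_ℝ + ⟪n120, x - sR⟫_ℝ / 2 := by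
    intro x
    rw [inner_E2, inner_E2, PiLp.sub_apply, PiLp.sub_apply, u300_0, u300_1, n120_0, n120_1, sR0,
      sR1]
    constructor
    · linear_combination (-(x 0 - cc) / 4) * h3
    · linear_combination (-(x 1) / 4) * h3
  have c60 : ∀ x : E2, x 0 = cc + ⟪b1, x - sR⟫_ℝ / 2 - Real.sqrt 3 / 2 * ⟪b2, x - sR⟫_ℝ ∧
      x 1 = (Real.sqrt 3 / 2) * ⟪b1, x - sR⟫_ℝ + ⟪b2, x - sR⟫_ℝ / 2 := by
    intro x
    rw [inner_E2, inner_E2, PiLp.sub_apply, PiLp.sub_apply, b10, b11, b20, b21, sR0,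
      sR1]
    constructor
    · linear_combination (-(x 0 - cc) / 4) * h3
    · linear_combination (-(x 1) / 4) * h3
  have hcc1 := cc_lt
  have hcc2 := lt_cc
  -- the boxes
  have s120 : Box (fun x : E2 => ⟪u120, x - sL⟫_ℝ) (fun x => ⟪n120, x - sL⟫_ℝ) (1 / 10)
      (1 / 10 + (26 : ℕ) * (1 / 25)) (1 / 20) ⊆ {x : E2 | x 0 < -(2 / 5) ∧ 0 < x 1} := by
    rintro x ⟨h1, h2, h4⟩
    obtain ⟨e0, e1⟩ := c120 x
    have h5 := abs_lt.1 h4
    simp only at h1 h2 h5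
    set p := ⟪u120, x - sL⟫_ℝ
    set l := ⟪n120, x - sL⟫_ℝ
    show x 0 < -(2 / 5) ∧ 0 < x 1
    constructor
    · rw [e0]; nlinarith
    · rw [e1]; nlinarith
  have s240 : Box (fun x : E2 => ⟪u240, x - sL⟫_ℝ) (fun x => ⟪n240, x - sL⟫_ℝ) (1 / 10)
      (1 / 10 + (26 : ℕ) * (1 / 25)) (1 / 20) ⊆ {x : E2 | x 0 < -(2 / 5) ∧ x 1 < 0} := by
    rintro x ⟨h1, h2, h4⟩
    obtain ⟨e0, e1⟩ := c240 x
    have h5 := abs_lt.1 h4
    simp only at h1 h2 h5
    set p := ⟪u240, x - sL⟫_ℝ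
    set l := ⟪n240, x - sL⟫_ℝ
    show x 0 < -(2 / 5) ∧ x 1 < 0
    constructor
    · rw [e0]; nlinarith
    · rw [e1]; nlinarith
  have s300 : Box (fun x : E2 => ⟪u300, x - sR⟫_ℝ) (fun x => ⟪n120, x - sR⟫_ℝ) (1 / 10)
      (1 / 10 + (26 : ℕ) * (1 / 25)) (1 / 20) ⊆ {x : E2 | 2 / 5 < x 0 ∧ x 1 < 0} := by
    rintro x ⟨h1, h2, h4⟩
    obtain ⟨e0, e1⟩ := c300 x
    have h5 := abs_lt.1 h4
    simp only at h1 h2 h5
    set p := ⟪u300, x - sR⟫_ℝ
    set l := ⟪n120, x - sR⟫_ℝ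
    show 2 / 5 < x 0 ∧ x 1 < 0
    constructor
    · rw [e0]; nlinarith
    · rw [e1]; nlinarith
  have s60 : Box (fun x : E2 => ⟪b1, x - sR⟫_ℝ) (fun x => ⟪b2, x - sR⟫_ℝ) (1 / 10)
      (1 / 10 + (276 : ℕ) * (1 / 25)) (1 / 20) ⊆ {x : E2 | 2 / 5 < x 0 ∧ 0 < x 1} := by
    rintro x ⟨h1, h2, h4⟩
    obtain ⟨e0, e1⟩ := c60 x
    have h5 := abs_lt.1 h4
    simp only at h1 h2 h5
    set p := ⟪b1, x - sR⟫_ℝ
    set l := ⟪b2, x - sR⟫_ℝ
    show 2 / 5 < x 0 ∧ 0 < x 1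
    constructor
    · rw [e0]; nlinarith
    · rw [e1]; nlinarith
  -- the four tubes
  have t120 := tube_seg hWc hW hcov nu120 nn120 (z := sL)
    (by rw [inner_E2, u120_0, u120_1, n120_0, n120_1]; ring) 26
    (by
      intro s hs1 hs2
      left
      exact Or.inl (Or.inl (Or.inl (Or.inl (seg_point v2_eq (by positivity) (by linarith)
        (by norm_num at hs2; linarith))))))
    ⟨y4, hy4, fun h => by
      have := (s120 (show y4 ∈ Box _ _ _ _ _ from h)).1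
      rw [hrv] at hy40
      linarith [hy40.1]⟩
  have t240 := tube_seg hWc hW hcov nu240 nn240 (z := sL)
    (by rw [inner_E2, u240_0, u240_1, n240_0, n240_1]; ring) 26
    (by
      intro s hs1 hs2
      left
      exact Or.inl (Or.inl (Or.inl (Or.inr (seg_point v3_eq (by positivity) (by linarith)
        (by norm_num at hs2; linarith))))))
    ⟨y4, hy4, fun h => by
      have := (s240 (show y4 ∈ Box _ _ _ _ _ from h)).1
      rw [hrv] at hy40
      linarith [hy40.1]⟩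
  have t300 := tube_seg hWc hW hcov nu300 nn120 (z := sR)
    (by rw [inner_E2, u300_0, u300_1, n120_0, n120_1]; ring) 26
    (by
      intro s hs1 hs2
      left
      exact Or.inl (Or.inr (seg_point v4_eq (by positivity) (by linarith)
        (by norm_num at hs2; linarith))))
    ⟨y2, hy2, fun h => by
      have := (s300 (show y2 ∈ Box _ _ _ _ _ from h)).1
      rw [hrv] at hy20
      linarith [hy20.2]⟩
  have t60 := tube_seg hWc hW hcov nb1 nb2 (z := sR) ib12 276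
    (by
      intro s hs1 hs2
      left
      exact Or.inr (seg_point p0_eq (by positivity) (by linarith)
        (by norm_num at hs2; linarith)))
    ⟨y2, hy2, fun h => by
      have := (s60 (show y2 ∈ Box _ _ _ _ _ from h)).1
      rw [hrv] at hy20
      linarith [hy20.2]⟩
  -- regions
  set R0 : Set E2 := (fun x : E2 => x 0) ⁻¹' Ioo (-(2 / 5)) (2 / 5) with hR0
  set R1 : Set E2 := {x : E2 | x 0 < -(2 / 5) ∧ 0 < x 1} with hR1
  set R2 : Set E2 := {x : E2 | x 0 < -(2 / 5) ∧ x 1 < 0} with hR2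
  set R3 : Set E2 := {x : E2 | 2 / 5 < x 0 ∧ x 1 < 0} with hR3
  set R4 : Set E2 := {x : E2 | 2 / 5 < x 0 ∧ 0 < x 1} with hR4
  have hc0 : Continuous (fun x : E2 => x 0) := by fun_prop
  have hc1 : Continuous (fun x : E2 => x 1) := by fun_prop
  have mR1 : MeasurableSet R1 :=
    ((isOpen_lt hc0 continuous_const).inter (isOpen_lt continuous_const hc1)).measurableSet
  have mR2 : MeasurableSet R2 :=
    ((isOpen_lt hc0 continuous_const).inter (isOpen_lt hc1 continuous_const)).measurableSet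
  have mR3 : MeasurableSet R3 :=
    ((isOpen_lt continuous_const hc0).inter (isOpen_lt hc1 continuous_const)).measurableSet
  have mR4 : MeasurableSet R4 :=
    ((isOpen_lt continuous_const hc0).inter (isOpen_lt continuous_const hc1)).measurableSet
  have hWm := hWc.measurableSet
  have l1 : μH[1] (W ∩ R0) + μH[1] (W ∩ R1) + μH[1] (W ∩ R2) + μH[1] (W ∩ R3) + μH[1] (W ∩ R4)
      ≤ μH[1] W := by
    have d1 : Disjoint (W ∩ R0) (W ∩ R1) := by
      rw [Set.disjoint_left]; rintro x ⟨_, h⟩ ⟨_, h'⟩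
      exact absurd h'.1 (not_lt.2 h.1.le)
    have d2 : Disjoint (W ∩ R0 ∪ W ∩ R1) (W ∩ R2) := by
      rw [Set.disjoint_left]; rintro x (⟨_, h⟩ | ⟨_, h⟩) ⟨_, h'⟩
      · exact absurd h'.1 (not_lt.2 h.1.le)
      · exact absurd h'.2 (not_lt.2 h.2.le)
    have d3 : Disjoint (W ∩ R0 ∪ W ∩ R1 ∪ W ∩ R2) (W ∩ R3) := by
      rw [Set.disjoint_left]; rintro x ((⟨_, h⟩ | ⟨_, h⟩) | ⟨_, h⟩) ⟨_, h'⟩
      · exact absurd h'.1 (not_lt.2 h.2.le)
      · have a1 : x 0 < -(2 / 5) := h.1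
        have a2 : 2 / 5 < x 0 := h'.1
        linarith
      · have a1 : x 0 < -(2 / 5) := h.1
        have a2 : 2 / 5 < x 0 := h'.1
        linarith
    have d4 : Disjoint (W ∩ R0 ∪ W ∩ R1 ∪ W ∩ R2 ∪ W ∩ R3) (W ∩ R4) := by
      rw [Set.disjoint_left]; rintro x (((⟨_, h⟩ | ⟨_, h⟩) | ⟨_, h⟩) | ⟨_, h⟩) ⟨_, h'⟩
      · exact absurd h'.1 (not_lt.2 h.2.le)
      · have a1 : x 0 < -(2 / 5) := h.1
        have a2 : 2 / 5 < x 0 := h'.1
        linarith
      · have a1 : x 0 < -(2 / 5) := h.1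
        have a2 : 2 / 5 < x 0 := h'.1
        linarith
      · have a1 : x 1 < 0 := h.2
        have a2 : 0 < x 1 := h'.2
        linarith
    rw [← measure_union d1 (hWm.inter mR1), ← measure_union d2 (hWm.inter mR2),
      ← measure_union d3 (hWm.inter mR3), ← measure_union d4 (hWm.inter mR4)]
    apply measure_mono
    rintro x ((((⟨h, _⟩ | ⟨h, _⟩) | ⟨h, _⟩) | ⟨h, _⟩) | ⟨h, _⟩) <;> exact h
  have l2 : ENNReal.ofReal (8 / 5) ≤ μH[1] (W ∩ R0) := by
    refine le_trans (le_of_eq ?_) hcon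
    rw [show (2 : ℝ≥0∞) = ENNReal.ofReal 2 by simp, ← ENNReal.ofReal_mul (by norm_num)]
    norm_num
  have l3 := t120.trans (measure_mono (inter_subset_inter_right W s120))
  have l4 := t240.trans (measure_mono (inter_subset_inter_right W s240))
  have l5 := t300.trans (measure_mono (inter_subset_inter_right W s300))
  have l6 := t60.trans (measure_mono (inter_subset_inter_right W s60))
  have l7 := add_le_add (add_le_add (add_le_add (add_le_add l2 l3) l4) l5) l6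
  have l8 := l7.trans l1
  rw [← ENNReal.ofReal_add (by norm_num) (by rw [hrv]; norm_num),
    ← ENNReal.ofReal_add (by rw [hrv]; norm_num) (by rw [hrv]; norm_num),
    ← ENNReal.ofReal_add (by rw [hrv]; norm_num) (by rw [hrv]; norm_num),
    ← ENNReal.ofReal_add (by rw [hrv]; norm_num) (by rw [hrv]; norm_num)] at l8
  have l9 := lt_of_le_of_lt l8 hlt
  rw [ENNReal.ofReal_lt_ofReal_iff (by unfold LT; positivity), hrv] at l9
  unfold LT at l9
  norm_num at l9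
  linarith

theorem lowerM {W : Set E2} (hWc : IsCompact W) (hW : IsConnected W)
    (hcov : ∀ y ∈ MM, Metric.infDist y W ≤ rr) : ENNReal.ofReal LT ≤ μH[1] W := by
  by_contra hcon
  push Not at hcon
  have hr := rr_pos
  have hrv : rr = 1 / 100000 := rfl
  have h3 := sqrt3_sq
  have hl := lt_sqrt3
  have hu := sqrt3_lt
  obtain ⟨z2, hz2, i2, d2⟩ := touch hWc hW hcov AA_v2 u120
  obtain ⟨z3, hz3, i3, d3⟩ := touch hWc hW hcov AA_v3 u240
  obtain ⟨z4, hz4, i4, d4⟩ := touch hWc hW hcov AA_v4 u300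
  obtain ⟨zp, hzp, dp⟩ := near hWc hW hcov (AA_PP 0)
  have x2 := abs_le.1 (coord_near d2)
  have x3 := abs_le.1 (coord_near d3)
  have x4 := abs_le.1 (coord_near d4)
  have xp := abs_le.1 (coord_near dp)
  have y2 := abs_le.1 (f1_near d2)
  have y3 := abs_le.1 (f1_near d3)
  have y4 := abs_le.1 (f1_near d4)
  have yp := abs_le.1 (f1_near dp)
  rw [v20] at x2
  rw [v30] at x3
  rw [v40] at x4
  rw [PP_zero, p00] at xp
  rw [PP_zero, f1_p0] at yp
  have fv2 := f1_v2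
  have fv3 := f1_v3
  have fv4 := f1_v4
  rw [hrv] at x2 x3 x4 xp y2 y3 y4 yp
  -- the cut of the long edge
  have hlt1 : μH[1] (W ∩ f1 ⁻¹' Ioo 1 9) < 2 * ENNReal.ofReal (9 - 1) := by
    refine lt_of_le_of_lt (measure_mono inter_subset_left) (hcon.trans_le ?_)
    rw [show (2 : ℝ≥0∞) = ENNReal.ofReal 2 by simp, ← ENNReal.ofReal_mul (by norm_num)]
    exact ENNReal.ofReal_le_ofReal (by linarith [LT_lt])
  obtain ⟨t, ht, q, hq⟩ := exists_cut f1_lip hWc hW.isPreconnected hz4 hzp (a := 1) (b := 9)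
    (by linarith [y4.2]) (by linarith [yp.1]) hlt1
  have hqW : q ∈ W ∩ f1 ⁻¹' {t} := by rw [hq]; rfl
  have hqt : f1 q = t := hqW.2
  -- the cut of the middle edge
  have hlt2 := slab_short hWc hW hcov hcon
  obtain ⟨s, hs, p, hp⟩ := exists_cut e_lip hWc hW.isPreconnected hz3 hz4 (a := -(2 / 5))
    (b := 2 / 5) (by linarith [x3.2]) (by linarith [x4.1]) hlt2
  have hpW : p ∈ W ∩ (fun x : E2 => x 0) ⁻¹' {s} := by rw [hp]; rfl
  have hps : p 0 = s := hpW.2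
  have hc0 : Continuous (fun x : E2 => x 0) := by fun_prop
  -- pieces
  have hA := cut hWc.isClosed hW.isPreconnected f1_cont hq
  have hB := cut' hWc.isClosed hW.isPreconnected f1_cont hq
  have hR := cut' hWc.isClosed hW.isPreconnected hc0 hp
  set WA : Set E2 := W ∩ f1 ⁻¹' Iic t with hWA
  have hWAc : IsCompact WA := hWc.inter_right (isClosed_Iic.preimage f1_cont)
  have hz2A : z2 ∈ WA := ⟨hz2, by show f1 z2 ≤ t; linarith [y2.2, ht.1]⟩
  have hz3A : z3 ∈ WA := ⟨hz3, by show f1 z3 ≤ t; linarith [y3.2, ht.1]⟩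
  have hz4A : z4 ∈ WA := ⟨hz4, by show f1 z4 ≤ t; linarith [y4.2, ht.1]⟩
  have hpA : WA ∩ (fun x : E2 => x 0) ⁻¹' {s} = {p} := by
    obtain ⟨w, hw, hws⟩ := hA.intermediate_value hz3A hz4A hc0.continuousOn
      (show s ∈ Icc (z3 0) (z4 0) from ⟨by linarith [x3.2, hs.1], by linarith [x4.1, hs.2]⟩)
    have hwp : w = p := by
      have : w ∈ W ∩ (fun x : E2 => x 0) ⁻¹' {s} := ⟨hw.1, hws⟩
      rw [hp] at this; exact this
    subst hwp
    refine Set.eq_singleton_iff_unique_mem.2 ⟨⟨hw, hws⟩, ?_⟩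
    rintro w' ⟨h1, h2⟩
    have : w' ∈ W ∩ (fun x : E2 => x 0) ⁻¹' {s} := ⟨h1.1, h2⟩
    rw [hp] at this; exact this
  have hqR : s ≤ q 0 := by
    obtain ⟨w, hw, hwt⟩ := hR.intermediate_value (f := f1)
      (show z4 ∈ W ∩ (fun x : E2 => x 0) ⁻¹' Ici s from ⟨hz4, by
        show s ≤ z4 0; linarith [x4.1, hs.2]⟩)
      (show zp ∈ W ∩ (fun x : E2 => x 0) ⁻¹' Ici s from ⟨hzp, by
        show s ≤ zp 0; linarith [xp.1, hs.2]⟩) f1_cont.continuousOn
      (show t ∈ Icc (f1 z4) (f1 zp) from ⟨by linarith [y4.2, ht.1], by linarith [yp.1, ht.2]⟩)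
    have hwq : w = q := by
      have : w ∈ W ∩ f1 ⁻¹' {t} := ⟨hw.1, hwt⟩
      rw [hq] at this; exact this
    rw [← hwq]; exact hw.2
  have hAL := cut hWAc.isClosed hA hc0 hpA
  have hAR := cut' hWAc.isClosed hA hc0 hpA
  have hpA' : p ∈ WA := by
    have : p ∈ WA ∩ (fun x : E2 => x 0) ⁻¹' {s} := by rw [hpA]; rfl
    exact this.1
  have sum1 := meas_split hWc f1_cont hq
  have sum2 := meas_split hWAc hc0 hpA
  -- left tripod
  have L1 := tripod_cal (hWAc.inter_right (isClosed_Iic.preimage hc0)) hAL (x := p) (y := z2)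
    (z := z3) (u := ex) (v := u120) (w := u240) ⟨hpA', hps.le⟩
    ⟨hz2A, by show z2 0 ≤ s; linarith [x2.2, hs.1]⟩
    ⟨hz3A, by show z3 0 ≤ s; linarith [x3.2, hs.1]⟩ nex nu120 nu240 (by
      ext i
      fin_cases i
      · show (ex + u120 + u240) 0 = 0
        rw [PiLp.add_apply, PiLp.add_apply, ex_0, u120_0, u240_0]; norm_num
      · show (ex + u120 + u240) 1 = 0
        rw [PiLp.add_apply, PiLp.add_apply, ex_1, u120_1, u240_1]; ring)
  -- right tripod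
  have L2 := tripod_cal (hWAc.inter_right (isClosed_Ici.preimage hc0)) hAR (x := p) (y := z4)
    (z := q) (u := - ex) (v := u300) (w := b1) ⟨hpA', hps.ge⟩
    ⟨hz4A, by show s ≤ z4 0; linarith [x4.1, hs.2]⟩
    ⟨⟨hqW.1, hqt.le⟩, hqR⟩ (by rw [norm_neg]; exact nex) nu300 nb1 (by
      ext i
      fin_cases i
      · show (- ex + u300 + b1) 0 = 0
        rw [PiLp.add_apply, PiLp.add_apply, PiLp.neg_apply, ex_0, u300_0, b10]; norm_num
      · show (- ex + u300 + b1) 1 = 0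
        rw [PiLp.add_apply, PiLp.add_apply, PiLp.neg_apply, ex_1, u300_1, b11]; ring)
  -- tail
  have hzB : ∀ k, ∀ h : E2, ∃ z ∈ W ∩ f1 ⁻¹' Ici t, 0 ≤ ⟪h, z - PP k⟫_ℝ := by
    intro k h
    obtain ⟨z, hz, iz, dz⟩ := touch hWc hW hcov (AA_PP k) h
    have yz := abs_le.1 (f1_near dz)
    have := (PP_mem_bx k).1.1
    rw [hrv] at yz
    exact ⟨z, ⟨hz, by show t ≤ f1 z; linarith [yz.1, ht.2]⟩, iz⟩
  have L3 := tail_lower (p₀ := p0) nb1 nb2 ib12 hB (q := q) ⟨hqW.1, hqt.ge⟩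
    (fun k => hzB k (jmp b1 b2 k)) (fun n => hzB n (dir b1 b2 n))
  rw [dir_zero, inner_b1_sub, f1_p0, hqt] at L3
  -- values
  have e1 : ⟪ex, p⟫_ℝ = s := by rw [inner_E2, ex_0, ex_1, hps]; ring
  have e1' : ⟪-ex, p⟫_ℝ = - s := by rw [inner_neg_left, e1]
  have e2 : 1 / 2 + Real.sqrt 3 / 2 ≤ ⟪u120, z2⟫_ℝ := by
    rw [inner_sub_right] at i2
    have : ⟪u120, v2⟫_ℝ = 1 / 2 + Real.sqrt 3 / 2 := by
      rw [inner_E2, u120_0, u120_1, v20, v21]; ring
    linarith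
  have e3 : 1 / 2 + Real.sqrt 3 / 2 ≤ ⟪u240, z3⟫_ℝ := by
    rw [inner_sub_right] at i3
    have : ⟪u240, v3⟫_ℝ = 1 / 2 + Real.sqrt 3 / 2 := by
      rw [inner_E2, u240_0, u240_1, v30, v31]; ring
    linarith
  have e4 : 1 / 2 + Real.sqrt 3 / 2 ≤ ⟪u300, z4⟫_ℝ := by
    rw [inner_sub_right] at i4
    have : ⟪u300, v4⟫_ℝ = 1 / 2 + Real.sqrt 3 / 2 := by
      rw [inner_E2, u300_0, u300_1, v40, v41]; ring
    linarith
  have e5 : ⟪b1, q⟫_ℝ = t + (1 / 2 + Real.sqrt 3 / 2) := by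
    have h5 := inner_b1_sub q v1
    rw [hqt, f1_v1, inner_sub_right] at h5
    have : ⟪b1, v1⟫_ℝ = 1 / 2 + Real.sqrt 3 / 2 := by
      rw [inner_E2, b10, b11, v10, v11]; ring
    linarith
  have L1' : ENNReal.ofReal (s + (1 + Real.sqrt 3)) ≤
      μH[1] (WA ∩ (fun x : E2 => x 0) ⁻¹' Iic s) :=
    le_trans (ENNReal.ofReal_le_ofReal (by rw [e1]; linarith)) L1
  have L2' : ENNReal.ofReal (- s + (1 + Real.sqrt 3) + t) ≤
      μH[1] (WA ∩ (fun x : E2 => x 0) ⁻¹' Ici s) :=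
    le_trans (ENNReal.ofReal_le_ofReal (by rw [e1', e5]; linarith)) L2
  have hfin : ENNReal.ofReal LT ≤ μH[1] W := by
    rw [← sum1, ← sum2]
    refine le_trans (le_of_eq ?_) (add_le_add (add_le_add L1' L2') L3)
    rw [← ENNReal.ofReal_add (by linarith [hs.1]) (by linarith [hs.2, ht.1]),
      ← ENNReal.ofReal_add (by linarith [ht.1]) (by linarith [ht.2])]
    congr 1; unfold LT; ring
  exact absurd hfin (not_le.2 hcon)

end Pool.Agent.Y459.NS
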